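import Mathlib

/-!
# HOFF: Hoffman's circulation theorem and the interval degree-constrained subgraph theorem
-/

set_option autoImplicit false

namespace Pool.Agent.CG

open Finset

/-- HOFF: Hoffman's circulation theorem on a finite set of nodes. -/
def HoffStmt : Prop := ∀ (N : Type) [Fintype N] [DecidableEq N] (lo hi : N → N → ℤ),
    (∀ a b, lo a b ≤ hi a b) →
    (∀ U : Finset N, ∑ a ∈ U, ∑ b ∈ Uᶜ, lo a b ≤ ∑ a ∈ Uᶜ, ∑ b ∈ U, hi a b) →
    ∃ f : N → N → ℤ, (∀ a b, lo a b ≤ f a b ∧ f a b ≤ hi a b) ∧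
      ∀ a, ∑ b, f a b = ∑ b, f b a

/-- Number of pairs of the relation `E` from `A` to `S`. -/
noncomputable def eb {X Y : Type} (E : X → Y → Prop) (A : Set X) (S : Set Y) : ℕ :=
  {p : X × Y | p.1 ∈ A ∧ p.2 ∈ S ∧ E p.1 p.2}.ncard

/-- INTF: a relation between `C` and `E` whose degrees lie in given intervals. -/
def IntfStmt : Prop := ∀ (X Y : Type) [Fintype X] [Fintype Y] (C E : X → Y → Prop)
    (l u : X → ℕ) (l' u' : Y → ℕ),
    (∀ x y, C x y → E x y) → (∀ x, l x ≤ u x) → (∀ y, l' y ≤ u' y) →
    (∀ (A : Finset X) (S : Finset Y), (∑ x ∈ A, l x) + eb C (Aᶜ : Set X) (S : Set Y) ≤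
      (∑ y ∈ S, u' y) + eb E (A : Set X) (Sᶜ : Set Y)) →
    (∀ (A : Finset X) (S : Finset Y), (∑ y ∈ S, l' y) + eb C (A : Set X) (Sᶜ : Set Y) ≤
      (∑ x ∈ A, u x) + eb E (Aᶜ : Set X) (S : Set Y)) →
    ∃ F : X → Y → Prop, (∀ x y, C x y → F x y) ∧ (∀ x y, F x y → E x y) ∧
      (∀ x, l x ≤ {y | F x y}.ncard ∧ {y | F x y}.ncard ≤ u x) ∧
      ∀ y, l' y ≤ {x | F x y}.ncard ∧ {x | F x y}.ncard ≤ u' y

namespace H7

section hoffman

variable {N : Type} [Fintype N] [DecidableEq N]

/-- Excess: inflow minus outflow. -/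
def exc (f : N → N → ℤ) (a : N) : ℤ := ∑ b, f b a - ∑ b, f a b

/-- Residual arcs. -/
def Res (lo hi f : N → N → ℤ) (a b : N) : Prop := f a b < hi a b ∨ lo b a < f b a

/-- Add `t` to the value at the arc `(a, b)`. -/
def upd (f : N → N → ℤ) (a b : N) (t : ℤ) : N → N → ℤ :=
  fun x y => f x y + if x = a ∧ y = b then t else 0

theorem exc_upd (f : N → N → ℤ) (a b : N) (t : ℤ) (c : N) :
    exc (upd f a b t) c = exc f c + (if c = b then t else 0) - (if c = a then t else 0) := by
  unfold exc upd
  rw [Finset.sum_add_distrib, Finset.sum_add_distrib]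
  have h1 : ∑ x, (if x = a ∧ c = b then t else 0) = if c = b then t else 0 := by
    by_cases h : c = b
    · simp [h]
    · simp [h]
  have h2 : ∑ x, (if c = a ∧ x = b then t else 0) = if c = a then t else 0 := by
    by_cases h : c = a
    · simp [h]
    · simp [h]
  rw [h1, h2]
  ring

theorem sum_exc (f : N → N → ℤ) : ∑ a, exc f a = 0 := by
  unfold exc
  rw [Finset.sum_sub_distrib, Finset.sum_comm, sub_self]

/-- Push one unit along a residual path. -/
theorem push (lo hi : N → N → ℤ) : ∀ (n : ℕ) (f : N → N → ℤ) (p : ℕ → N),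
    (∀ a b, lo a b ≤ f a b ∧ f a b ≤ hi a b) → (∀ i, i < n → Res lo hi f (p i) (p (i + 1))) →
    (∀ i j, i ≤ n → j ≤ n → p i = p j → i = j) →
    ∃ f' : N → N → ℤ, (∀ a b, lo a b ≤ f' a b ∧ f' a b ≤ hi a b) ∧
      ∀ c, exc f' c = exc f c + (if c = p n then 1 else 0) - (if c = p 0 then 1 else 0) := by
  intro n
  induction n with
  | zero =>
    intro f p hf _ _
    exact ⟨f, hf, fun c => by ring⟩
  | succ n ih =>
    intro f p hf hres hinj
    -- push the last arc
    obtain ⟨f1, hf1, hf1e, hf1c⟩ : ∃ f1 : N → N → ℤ, (∀ a b, lo a b ≤ f1 a b ∧ f1 a b ≤ hi a b) ∧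
        (∀ a b, a ≠ p (n + 1) → b ≠ p (n + 1) → f1 a b = f a b) ∧
        ∀ c, exc f1 c = exc f c + (if c = p (n + 1) then 1 else 0) -
          (if c = p n then 1 else 0) := by
      rcases hres n (Nat.lt_succ_self n) with h | h
      · refine ⟨upd f (p n) (p (n + 1)) 1, ?_, ?_, fun c => exc_upd f _ _ 1 c⟩
        · intro a b
          unfold upd
          by_cases hab : a = p n ∧ b = p (n + 1)
          · rw [if_pos hab, hab.1, hab.2]
            have := hf (p n) (p (n + 1))
            constructor <;> omega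
          · rw [if_neg hab, add_zero]
            exact hf a b
        · intro a b _ hb
          unfold upd
          rw [if_neg (fun h => hb h.2), add_zero]
      · refine ⟨upd f (p (n + 1)) (p n) (-1), ?_, ?_, fun c => ?_⟩
        · intro a b
          unfold upd
          by_cases hab : a = p (n + 1) ∧ b = p n
          · rw [if_pos hab, hab.1, hab.2]
            have := hf (p (n + 1)) (p n)
            constructor <;> omega
          · rw [if_neg hab, add_zero]
            exact hf a b
        · intro a b ha _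
          unfold upd
          rw [if_neg (fun h => ha h.1), add_zero]
        · rw [exc_upd]
          split_ifs <;> ring
    obtain ⟨f', hf', hf'c⟩ := ih f1 p hf1 (fun i hi => by
      have h1 : p i ≠ p (n + 1) := fun h => by
        have := hinj i (n + 1) (by omega) le_rfl h
        omega
      have h2 : p (i + 1) ≠ p (n + 1) := fun h => by
        have := hinj (i + 1) (n + 1) (by omega) le_rfl h
        omega
      have h3 := hres i (by omega)
      unfold Res at h3 ⊢
      rw [hf1e _ _ h1 h2, hf1e _ _ h2 h1]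
      exact h3) (fun i j hi hj => hinj i j (by omega) (by omega))
    refine ⟨f', hf', fun c => ?_⟩
    rw [hf'c, hf1c]
    ring

theorem hoff : HoffStmt := by
  intro N _ _ lo hi hlh hcut
  classical
  -- a feasible function with minimal total excess
  have hex : ∃ m : ℕ, ∃ f : N → N → ℤ, (∀ a b, lo a b ≤ f a b ∧ f a b ≤ hi a b) ∧
      ∑ a, (exc f a).natAbs = m := ⟨_, lo, fun a b => ⟨le_rfl, hlh a b⟩, rfl⟩
  obtain ⟨f, hf, hfm⟩ := Nat.find_spec hex
  have hmin : ∀ f' : N → N → ℤ, (∀ a b, lo a b ≤ f' a b ∧ f' a b ≤ hi a b) →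
      ∑ a, (exc f a).natAbs ≤ ∑ a, (exc f' a).natAbs := fun f' hf' => by
    rw [hfm]
    exact Nat.find_min' hex ⟨f', hf', rfl⟩
  by_cases hz : ∀ a, exc f a = 0
  · refine ⟨f, hf, fun a => ?_⟩
    have := hz a
    unfold exc at this
    omega
  exfalso
  push Not at hz
  -- a node with positive excess
  obtain ⟨a0, ha0⟩ : ∃ a, 0 < exc f a := by
    by_contra hcon
    push Not at hcon
    obtain ⟨a, ha⟩ := hz
    have h1 : ∑ a, exc f a < ∑ a : N, (0 : ℤ) :=
      Finset.sum_lt_sum (fun b _ => hcon b) ⟨a, Finset.mem_univ _, lt_of_le_of_ne (hcon a) ha⟩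
    rw [sum_exc, Finset.sum_const_zero] at h1
    exact lt_irrefl _ h1
  -- the set of the nodes which can be reached
  let U : Finset N := Finset.univ.filter fun b => ∃ (n : ℕ) (p : ℕ → N), p 0 = a0 ∧ p n = b ∧
    (∀ i, i < n → Res lo hi f (p i) (p (i + 1))) ∧ ∀ i j, i ≤ n → j ≤ n → p i = p j → i = j
  have hU : ∀ b, b ∈ U ↔ ∃ (n : ℕ) (p : ℕ → N), p 0 = a0 ∧ p n = b ∧
    (∀ i, i < n → Res lo hi f (p i) (p (i + 1))) ∧ ∀ i j, i ≤ n → j ≤ n → p i = p j → i = j :=
    fun b => by simp [U]
  have haU : a0 ∈ U := (hU a0).2 ⟨0, fun _ => a0, rfl, rfl, fun i hi => absurd hi (by omega),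
    fun i j hi hj _ => by omega⟩
  have hcl : ∀ b c, b ∈ U → c ∉ U → ¬ Res lo hi f b c := by
    intro b c hb hc hbc
    apply hc
    obtain ⟨n, p, hp0, hpn, hpr, hpi⟩ := (hU b).1 hb
    by_cases hin : ∃ i, i ≤ n ∧ p i = c
    · obtain ⟨i, hin, hic⟩ := hin
      exact (hU c).2 ⟨i, p, hp0, hic, fun j hj => hpr j (by omega),
        fun j j' hj hj' => hpi j j' (by omega) (by omega)⟩
    · push Not at hin
      refine (hU c).2 ⟨n + 1, fun i => if i ≤ n then p i else c, ?_, ?_, ?_, ?_⟩
      · simp [hp0]
      · simp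
      · intro i hi
        by_cases h1 : i < n
        · have h2 : i ≤ n := by omega
          have h3 : i + 1 ≤ n := by omega
          simp only [h2, h3, if_true]
          exact hpr i h1
        · have h2 : i = n := by omega
          subst h2
          simp only [le_refl, if_true, Nat.not_succ_le_self, if_false]
          rw [hpn]
          exact hbc
      · intro i j hi hj hij
        by_cases h1 : i ≤ n <;> by_cases h2 : j ≤ n
        · simp only [h1, h2, if_true] at hij
          exact hpi i j h1 h2 hij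
        · simp only [h1, h2, if_true, if_false] at hij
          exact absurd hij (hin i h1)
        · simp only [h1, h2, if_true, if_false] at hij
          exact absurd hij.symm (hin j h2)
        · omega
  -- the nodes of `U` have nonnegative excess
  have hpos : ∀ b ∈ U, 0 ≤ exc f b := by
    intro b hb
    by_contra hneg
    push Not at hneg
    obtain ⟨n, p, hp0, hpn, hpr, hpi⟩ := (hU b).1 hb
    obtain ⟨f', hf', hf'c⟩ := push lo hi n f p hf hpr hpi
    have h1 := hmin f' hf'
    rw [hp0, hpn] at hf'c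
    have hab : a0 ≠ b := fun h => by rw [h] at ha0; omega
    have h2 : ∑ a, (exc f' a).natAbs < ∑ a, (exc f a).natAbs := by
      refine Finset.sum_lt_sum (fun c _ => ?_) ⟨a0, Finset.mem_univ _, ?_⟩
      · rw [hf'c c]
        by_cases hcb : c = b
        · subst hcb
          rw [if_pos rfl, if_neg (Ne.symm hab)]
          omega
        · by_cases hca : c = a0
          · subst hca
            rw [if_neg hcb, if_pos rfl]
            omega
          · rw [if_neg hcb, if_neg hca]
            simp
      · rw [hf'c a0, if_neg hab, if_pos rfl]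
        omega
    omega
  -- the cut
  have h1 : ∑ a ∈ U, exc f a = ∑ a ∈ Uᶜ, ∑ b ∈ U, f a b - ∑ a ∈ U, ∑ b ∈ Uᶜ, f a b := by
    have h2 : ∑ a ∈ U, exc f a = ∑ a ∈ U, ∑ b, f b a - ∑ a ∈ U, ∑ b, f a b := by
      unfold exc
      rw [Finset.sum_sub_distrib]
    have h3 : ∀ g : N → ℤ, ∑ b, g b = ∑ b ∈ U, g b + ∑ b ∈ Uᶜ, g b := fun g =>
      (Finset.sum_add_sum_compl U g).symm
    rw [h2]
    simp only [h3]
    rw [Finset.sum_add_distrib, Finset.sum_add_distrib, Finset.sum_comm (s := U) (t := U),
      Finset.sum_comm (s := U) (t := Uᶜ) (f := fun a b => f b a)]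
    ring
  have h4 : ∑ a ∈ Uᶜ, ∑ b ∈ U, f a b = ∑ a ∈ Uᶜ, ∑ b ∈ U, lo a b := by
    refine Finset.sum_congr rfl fun a ha => Finset.sum_congr rfl fun b hb => ?_
    have h5 := hcl b a hb (Finset.mem_compl.1 ha)
    unfold Res at h5
    push Not at h5
    have := hf a b
    omega
  have h6 : ∑ a ∈ U, ∑ b ∈ Uᶜ, f a b = ∑ a ∈ U, ∑ b ∈ Uᶜ, hi a b := by
    refine Finset.sum_congr rfl fun a ha => Finset.sum_congr rfl fun b hb => ?_
    have h5 := hcl a b ha (Finset.mem_compl.1 hb)
    unfold Res at h5
    push Not at h5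
    have := hf a b
    omega
  have h7 : 0 < ∑ a ∈ U, exc f a := Finset.sum_pos' hpos ⟨a0, haU, ha0⟩
  have h8 := hcut Uᶜ
  rw [compl_compl] at h8
  omega

end hoffman

section bip

variable {X Y : Type} [Fintype X] [Fintype Y]

open Classical in
theorem eb_eq (E : X → Y → Prop) (A : Set X) (S : Set Y) :
    (eb E A S : ℤ) = ∑ x, ∑ y, if x ∈ A ∧ y ∈ S ∧ E x y then 1 else 0 := by
  unfold eb
  have h1 : {p : X × Y | p.1 ∈ A ∧ p.2 ∈ S ∧ E p.1 p.2} =
      ↑((Finset.univ : Finset (X × Y)).filter fun p => p.1 ∈ A ∧ p.2 ∈ S ∧ E p.1 p.2) := by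
    ext p
    simp
  rw [h1, Set.ncard_coe_finset, Finset.card_filter, ← Finset.univ_product_univ,
    Finset.sum_product]
  push_cast
  rfl

open Classical in
theorem deg_eq (f : Y → ℤ) (hf : ∀ y, f y = 0 ∨ f y = 1) :
    (({y | f y = 1} : Set Y).ncard : ℤ) = ∑ y, f y := by
  have h1 : ({y | f y = 1} : Set Y) = ↑((Finset.univ : Finset Y).filter fun y => f y = 1) := by
    ext p
    simp
  rw [h1, Set.ncard_coe_finset, Finset.card_filter]
  push_cast
  refine Finset.sum_congr rfl fun y _ => ?_
  rcases hf y with h | h <;> simp [h]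

/-- The bounds of the network. -/
noncomputable def net (E : X → Y → Prop) (u : X → ℕ) (u' : Y → ℕ) :
    Option (X ⊕ Y) → Option (X ⊕ Y) → ℤ
  | some (Sum.inl x), some (Sum.inr y) => open Classical in if E x y then 1 else 0
  | none, some (Sum.inl x) => u x
  | some (Sum.inr y), none => u' y
  | _, _ => 0

open Classical in
theorem net_sum (E : X → Y → Prop) (u : X → ℕ) (u' : Y → ℕ) (P Q : Option (X ⊕ Y) → Prop)
    [DecidablePred P] [DecidablePred Q] :
    ∑ a ∈ Finset.univ.filter P, ∑ b ∈ Finset.univ.filter Q, net E u u' a b =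
      (∑ x, ∑ y, if P (some (Sum.inl x)) ∧ Q (some (Sum.inr y)) ∧ E x y then (1 : ℤ) else 0) +
      (∑ x, if P none ∧ Q (some (Sum.inl x)) then (u x : ℤ) else 0) +
      ∑ y, if P (some (Sum.inr y)) ∧ Q none then (u' y : ℤ) else 0 := by
  simp only [Finset.sum_filter]
  rw [Fintype.sum_option, Fintype.sum_sum_type]
  simp only [Fintype.sum_option, Fintype.sum_sum_type, net, ite_self, Finset.sum_const_zero,
    add_zero, zero_add]
  have h1 : (if P none then ∑ x, (if Q (some (Sum.inl x)) then (u x : ℤ) else 0) else 0) =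
      ∑ x, if P none ∧ Q (some (Sum.inl x)) then (u x : ℤ) else 0 := by
    by_cases h : P none <;> simp [h]
  have h2 : (∑ x, if P (some (Sum.inl x)) then
      (∑ y, if Q (some (Sum.inr y)) then (if E x y then (1 : ℤ) else 0) else 0) else 0) =
      ∑ x, ∑ y, if P (some (Sum.inl x)) ∧ Q (some (Sum.inr y)) ∧ E x y then (1 : ℤ) else 0 := by
    refine Finset.sum_congr rfl fun x _ => ?_
    by_cases h : P (some (Sum.inl x))
    · simp only [h, if_true, true_and]
      refine Finset.sum_congr rfl fun y _ => ?_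
      by_cases h' : Q (some (Sum.inr y)) <;> simp [h']
    · simp [h]
  have h3 : (∑ y, if P (some (Sum.inr y)) then (if Q none then (u' y : ℤ) else 0) else 0) =
      ∑ y, if P (some (Sum.inr y)) ∧ Q none then (u' y : ℤ) else 0 := by
    refine Finset.sum_congr rfl fun y _ => ?_
    by_cases h : P (some (Sum.inr y)) <;> simp [h]
  rw [h1, h2, h3]
  ring

theorem intf : IntfStmt := by
  intro X Y _ _ C E l u l' u' hCE hlu hlu' h1 h2
  classical
  obtain ⟨f, hf, hfc⟩ := hoff (Option (X ⊕ Y)) (net C l l') (net E u u') (by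
    rintro (_ | x | y) (_ | x' | y')
    · simp [net]
    · simpa [net] using hlu x'
    · simp [net]
    · simp [net]
    · simp [net]
    · simp only [net]
      by_cases h : C x y'
      · simp [h, hCE x y' h]
      · simp only [h, if_false]
        split_ifs <;> norm_num
    · simpa [net] using hlu' y
    · simp [net]
    · simp [net]) (by
    intro U
    have e1 : U = Finset.univ.filter (fun a => a ∈ U) := by ext; simp
    have e2 : Uᶜ = Finset.univ.filter (fun a => a ∉ U) := by ext; simp
    rw [e2, e1]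
    simp only [Finset.mem_filter, Finset.mem_univ, true_and]
    rw [net_sum, net_sum]
    by_cases hn : none ∈ U
    · have h3 := h1 (Finset.univ.filter fun x => some (Sum.inl x) ∉ U)
        (Finset.univ.filter fun y => some (Sum.inr y) ∉ U)
      have h4 : ((∑ x ∈ Finset.univ.filter (fun x => some (Sum.inl x) ∉ U), l x : ℕ) : ℤ) +
          (eb C ((↑(Finset.univ.filter fun x : X => (some (Sum.inl x) : Option (X ⊕ Y)) ∉ U) :
            Set X)ᶜ) (↑(Finset.univ.filter fun y : Y => (some (Sum.inr y) : Option (X ⊕ Y)) ∉ U) :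
            Set Y) : ℤ) ≤
          ((∑ y ∈ Finset.univ.filter (fun y => some (Sum.inr y) ∉ U), u' y : ℕ) : ℤ) +
          (eb E (↑(Finset.univ.filter fun x : X => (some (Sum.inl x) : Option (X ⊕ Y)) ∉ U) :
            Set X) ((↑(Finset.univ.filter fun y : Y => (some (Sum.inr y) : Option (X ⊕ Y)) ∉ U) :
            Set Y)ᶜ) : ℤ) := by exact_mod_cast h3
      rw [eb_eq, eb_eq] at h4
      push_cast [Finset.sum_filter] at h4
      simp only [Finset.coe_filter, Finset.mem_univ, true_and, Set.mem_compl_iff,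
        Set.mem_ofPred_eq, not_not, hn, not_true_eq_false, false_and, and_false, if_false,
        Finset.sum_const_zero, and_true, true_and, add_zero] at h4 ⊢
      linarith
    · have h3 := h2 (Finset.univ.filter fun x => some (Sum.inl x) ∈ U)
        (Finset.univ.filter fun y => some (Sum.inr y) ∈ U)
      have h4 : ((∑ y ∈ Finset.univ.filter (fun y => some (Sum.inr y) ∈ U), l' y : ℕ) : ℤ) +
          (eb C (↑(Finset.univ.filter fun x : X => (some (Sum.inl x) : Option (X ⊕ Y)) ∈ U) :
            Set X) ((↑(Finset.univ.filter fun y : Y => (some (Sum.inr y) : Option (X ⊕ Y)) ∈ U) :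
            Set Y)ᶜ) : ℤ) ≤
          ((∑ x ∈ Finset.univ.filter (fun x => some (Sum.inl x) ∈ U), u x : ℕ) : ℤ) +
          (eb E ((↑(Finset.univ.filter fun x : X => (some (Sum.inl x) : Option (X ⊕ Y)) ∈ U) :
            Set X)ᶜ) (↑(Finset.univ.filter fun y : Y => (some (Sum.inr y) : Option (X ⊕ Y)) ∈ U) :
            Set Y) : ℤ) := by exact_mod_cast h3
      rw [eb_eq, eb_eq] at h4
      push_cast [Finset.sum_filter] at h4
      simp only [Finset.coe_filter, Finset.mem_univ, true_and, Set.mem_compl_iff,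
        Set.mem_ofPred_eq, not_not, hn, not_false_eq_true, false_and, and_false, if_false,
        Finset.sum_const_zero, and_true, true_and, add_zero] at h4 ⊢
      linarith)
  have hz : ∀ a b, net E u u' a b = 0 → net C l l' a b = 0 → f a b = 0 := fun a b ha hb => by
    have := hf a b
    omega
  have h01 : ∀ x y, f (some (Sum.inl x)) (some (Sum.inr y)) = 0 ∨
      f (some (Sum.inl x)) (some (Sum.inr y)) = 1 := by
    intro x y
    have h3 := hf (some (Sum.inl x)) (some (Sum.inr y))
    simp only [net] at h3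
    have h4 : (0 : ℤ) ≤ if C x y then 1 else 0 := by split_ifs <;> norm_num
    have h5 : (if E x y then (1 : ℤ) else 0) ≤ 1 := by split_ifs <;> norm_num
    omega
  refine ⟨fun x y => f (some (Sum.inl x)) (some (Sum.inr y)) = 1, ?_, ?_, ?_, ?_⟩
  · intro x y hC
    have h3 := hf (some (Sum.inl x)) (some (Sum.inr y))
    simp only [net, hC, hCE x y hC, if_true] at h3
    omega
  · intro x y hF
    by_contra hE
    have h3 := hf (some (Sum.inl x)) (some (Sum.inr y))
    simp only [net, hE, if_false] at h3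
    omega
  · intro x
    have h3 := deg_eq (fun y => f (some (Sum.inl x)) (some (Sum.inr y))) (h01 x)
    have h4 := hfc (some (Sum.inl x))
    rw [Fintype.sum_option, Fintype.sum_option, Fintype.sum_sum_type, Fintype.sum_sum_type,
      hz _ none (by simp [net]) (by simp [net]),
      Finset.sum_eq_zero (s := Finset.univ) (f := fun x' => f (some (Sum.inl x))
        (some (Sum.inl x'))) (fun x' _ => hz _ _ (by simp [net]) (by simp [net])),
      Finset.sum_eq_zero (s := Finset.univ) (f := fun x' => f (some (Sum.inl x'))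
        (some (Sum.inl x))) (fun x' _ => hz _ _ (by simp [net]) (by simp [net])),
      Finset.sum_eq_zero (s := Finset.univ) (f := fun y' => f (some (Sum.inr y'))
        (some (Sum.inl x))) (fun x' _ => hz _ _ (by simp [net]) (by simp [net]))] at h4
    have h5 := hf none (some (Sum.inl x))
    simp only [net] at h5
    constructor
    · have : (l x : ℤ) ≤ ({y | f (some (Sum.inl x)) (some (Sum.inr y)) = 1} : Set Y).ncard := by
        rw [h3]; linarith
      exact_mod_cast this
    · have : (({y | f (some (Sum.inl x)) (some (Sum.inr y)) = 1} : Set Y).ncard : ℤ) ≤ u x := by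
        rw [h3]; linarith
      exact_mod_cast this
  · intro y
    have h3 := deg_eq (fun x => f (some (Sum.inl x)) (some (Sum.inr y))) (fun x => h01 x y)
    have h4 := hfc (some (Sum.inr y))
    rw [Fintype.sum_option, Fintype.sum_option, Fintype.sum_sum_type, Fintype.sum_sum_type,
      hz none _ (by simp [net]) (by simp [net]),
      Finset.sum_eq_zero (s := Finset.univ) (f := fun x' => f (some (Sum.inr y))
        (some (Sum.inl x'))) (fun x' _ => hz _ _ (by simp [net]) (by simp [net])),
      Finset.sum_eq_zero (s := Finset.univ) (f := fun x' => f (some (Sum.inr y))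
        (some (Sum.inr x'))) (fun x' _ => hz _ _ (by simp [net]) (by simp [net])),
      Finset.sum_eq_zero (s := Finset.univ) (f := fun y' => f (some (Sum.inr y'))
        (some (Sum.inr y))) (fun x' _ => hz _ _ (by simp [net]) (by simp [net]))] at h4
    have h5 := hf (some (Sum.inr y)) none
    simp only [net] at h5
    constructor
    · have : (l' y : ℤ) ≤ ({x | f (some (Sum.inl x)) (some (Sum.inr y)) = 1} : Set X).ncard := by
        rw [h3]; linarith
      exact_mod_cast this
    · have : (({x | f (some (Sum.inl x)) (some (Sum.inr y)) = 1} : Set X).ncard : ℤ) ≤ u' y := by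
        rw [h3]; linarith
      exact_mod_cast this

end bip

end H7

end Pool.Agent.CG
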