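import Pool.Agent.Helper22_LLG.Stmt
import Pool.Agent.Helper7_CG.Hoff

/-!
# CG: FHM (factor theorem with forced arcs and sinks) and VIO (extremal violators)
-/

set_option autoImplicit false

namespace Pool.Agent.CG

open SimpleGraph Pool.Agent.LLG

/-- FHM: an `f`-factor of `B` which contains `F`, up to one missing arc at vertices of `Z1`, `Z2`. -/
def FhmStmt : Prop := ∀ (V : Type) [Fintype V] (B F : V → V → Prop) (Z1 Z2 : Set V) (f : ℕ),
    1 ≤ f → (∀ x y, F x y → B x y) →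
    (∀ A S : Set V, f * A.ncard + eb F Aᶜ S ≤ f * S.ncard + eb B A Sᶜ + (A ∩ Z1).ncard) →
    (∀ A S : Set V, f * S.ncard + eb F A Sᶜ ≤ f * A.ncard + eb B Aᶜ S + (S ∩ Z2).ncard) →
    ∃ H : V → V → Prop, (∀ x y, F x y → H x y) ∧ (∀ x y, H x y → B x y) ∧
      (∀ x, {y | H x y}.ncard ≤ f ∧ f ≤ {y | H x y}.ncard + 1 ∧
        (x ∉ Z1 → {y | H x y}.ncard = f)) ∧
      ∀ y, {x | H x y}.ncard ≤ f ∧ f ≤ {x | H x y}.ncard + 1 ∧ (y ∉ Z2 → {x | H x y}.ncard = f)

/-- VIO: if the condition of FHM fails, then it fails for a connected pair of sets which satisfies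
four local conditions. -/
def VioStmt : Prop := ∀ (V : Type) [Fintype V] (O B F : V → V → Prop) (Z : Set V) (f j : ℕ),
    j + 2 ≤ f → (∀ x y, B x y → O x y) → (∀ x y, F x y → B x y) →
    (∀ x, {y | F x y}.ncard ≤ 1) → (∀ y, {x | F x y}.ncard ≤ 1) →
    (∀ x, f + j ≤ {y | B x y}.ncard) → (∀ y, f + j ≤ {x | B x y}.ncard) →
    (∃ A S : Set V, f * S.ncard + eb B A Sᶜ + (A ∩ Z).ncard < f * A.ncard + eb F Aᶜ S) →
    ∃ A S : Set V, f * S.ncard + eb B A Sᶜ + (A ∩ Z).ncard < f * A.ncard + eb F Aᶜ S ∧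
      ((dbl O).induce (Sum.inl '' A ∪ Sum.inr '' S)).Connected ∧
      (∀ x ∈ A, j ≤ {y | y ∈ S ∧ B x y}.ncard) ∧ (∀ x ∉ A, j ≤ {y | y ∉ S ∧ B x y}.ncard) ∧
      (∀ y ∈ S, j ≤ {x | x ∈ A ∧ B x y}.ncard) ∧ ∀ y ∉ S, j ≤ {x | x ∉ A ∧ B x y}.ncard

namespace H7

section

variable {X Y : Type}

theorem eb_union_left [Finite X] [Finite Y] (E : X → Y → Prop) (A A' : Set X) (S : Set Y)
    (h : Disjoint A A') : eb E (A ∪ A') S = eb E A S + eb E A' S := by
  unfold eb
  rw [← Set.ncard_union_eq _ (Set.toFinite _) (Set.toFinite _)]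
  · congr 1
    ext p
    constructor
    · rintro ⟨h1 | h1, h2, h3⟩
      · exact Or.inl ⟨h1, h2, h3⟩
      · exact Or.inr ⟨h1, h2, h3⟩
    · rintro (⟨h1, h2, h3⟩ | ⟨h1, h2, h3⟩)
      · exact ⟨Or.inl h1, h2, h3⟩
      · exact ⟨Or.inr h1, h2, h3⟩
  · rw [Set.disjoint_left]
    rintro p ⟨h1, _, _⟩ ⟨h2, _, _⟩
    exact Set.disjoint_left.1 h h1 h2

theorem eb_union_right [Finite X] [Finite Y] (E : X → Y → Prop) (A : Set X) (S S' : Set Y)
    (h : Disjoint S S') : eb E A (S ∪ S') = eb E A S + eb E A S' := by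
  unfold eb
  rw [← Set.ncard_union_eq _ (Set.toFinite _) (Set.toFinite _)]
  · congr 1
    ext p
    constructor
    · rintro ⟨h1, h2 | h2, h3⟩
      · exact Or.inl ⟨h1, h2, h3⟩
      · exact Or.inr ⟨h1, h2, h3⟩
    · rintro (⟨h1, h2, h3⟩ | ⟨h1, h2, h3⟩)
      · exact ⟨h1, Or.inl h2, h3⟩
      · exact ⟨h1, Or.inr h2, h3⟩
  · rw [Set.disjoint_left]
    rintro p ⟨_, h1, _⟩ ⟨_, h2, _⟩
    exact Set.disjoint_left.1 h h1 h2

theorem eb_single_left (E : X → Y → Prop) (x : X) (S : Set Y) :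
    eb E {x} S = {y | y ∈ S ∧ E x y}.ncard := by
  unfold eb
  rw [← Set.ncard_image_of_injective {y | y ∈ S ∧ E x y} (Prod.mk_right_injective x)]
  congr 1
  ext ⟨a, b⟩
  simp only [Set.mem_setOf_eq, Set.mem_singleton_iff, Set.mem_image, Prod.mk.injEq]
  constructor
  · rintro ⟨rfl, h2, h3⟩
    exact ⟨b, ⟨h2, h3⟩, rfl, rfl⟩
  · rintro ⟨b', ⟨h2, h3⟩, rfl, rfl⟩
    exact ⟨rfl, h2, h3⟩

theorem eb_single_right (E : X → Y → Prop) (A : Set X) (y : Y) :
    eb E A {y} = {x | x ∈ A ∧ E x y}.ncard := by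
  unfold eb
  rw [← Set.ncard_image_of_injective {x | x ∈ A ∧ E x y} (Prod.mk_left_injective y)]
  congr 1
  ext ⟨a, b⟩
  simp only [Set.mem_setOf_eq, Set.mem_singleton_iff, Set.mem_image, Prod.mk.injEq]
  constructor
  · rintro ⟨h1, rfl, h3⟩
    exact ⟨a, ⟨h1, h3⟩, rfl, rfl⟩
  · rintro ⟨a', ⟨h2, h3⟩, rfl, rfl⟩
    exact ⟨h2, rfl, h3⟩

theorem eb_zero (E : X → Y → Prop) (A : Set X) (S : Set Y)
    (h : ∀ x ∈ A, ∀ y ∈ S, ¬ E x y) : eb E A S = 0 := by
  unfold eb
  have : {p : X × Y | p.1 ∈ A ∧ p.2 ∈ S ∧ E p.1 p.2} = ∅ := by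
    ext p
    simp only [Set.mem_setOf_eq, Set.mem_empty_iff_false, iff_false]
    rintro ⟨h1, h2, h3⟩
    exact h _ h1 _ h2 h3
  rw [this, Set.ncard_empty]

/-- splitting of a degree -/
theorem deg_split [Finite Y] (E : Y → Prop) (S : Set Y) :
    {y | y ∈ S ∧ E y}.ncard + {y | y ∉ S ∧ E y}.ncard = {y | E y}.ncard := by
  rw [← Set.ncard_union_eq _ (Set.toFinite _) (Set.toFinite _)]
  · congr 1
    ext y
    simp only [Set.mem_union, Set.mem_setOf_eq]
    tauto
  · rw [Set.disjoint_left]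
    rintro y ⟨h1, _⟩ ⟨h2, _⟩
    exact h2 h1

end

theorem fhm : FhmStmt := by
  intro V _ B F Z1 Z2 f hf hFB h1 h2
  classical
  obtain ⟨H, hFH, hHB, hx, hy⟩ := intf V V F B (fun x => f - if x ∈ Z1 then 1 else 0)
    (fun _ => f) (fun y => f - if y ∈ Z2 then 1 else 0) (fun _ => f) hFB
    (fun x => Nat.sub_le _ _) (fun y => Nat.sub_le _ _) (by
      intro A S
      have h3 := h1 (A : Set V) (S : Set V)
      have h4 : (∑ x ∈ A, (f - if x ∈ Z1 then 1 else 0)) + ((A : Set V) ∩ Z1).ncard =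
          f * A.card := by
        have h5 : ((A : Set V) ∩ Z1).ncard = ∑ x ∈ A, if x ∈ Z1 then 1 else 0 := by
          rw [← Finset.card_filter, ← Set.ncard_coe_finset]
          congr 1
          ext x
          simp
        rw [h5, ← Finset.sum_add_distrib, Finset.sum_congr rfl (g := fun _ => f)
          (fun x _ => by split_ifs <;> omega), Finset.sum_const, smul_eq_mul, mul_comm]
      simp only [Set.ncard_coe_finset] at h3
      rw [Finset.sum_const, smul_eq_mul, mul_comm S.card f]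
      omega) (by
      intro A S
      have h3 := h2 (A : Set V) (S : Set V)
      have h4 : (∑ x ∈ S, (f - if x ∈ Z2 then 1 else 0)) + ((S : Set V) ∩ Z2).ncard =
          f * S.card := by
        have h5 : ((S : Set V) ∩ Z2).ncard = ∑ x ∈ S, if x ∈ Z2 then 1 else 0 := by
          rw [← Finset.card_filter, ← Set.ncard_coe_finset]
          congr 1
          ext x
          simp
        rw [h5, ← Finset.sum_add_distrib, Finset.sum_congr rfl (g := fun _ => f)
          (fun x _ => by split_ifs <;> omega), Finset.sum_const, smul_eq_mul, mul_comm]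
      simp only [Set.ncard_coe_finset] at h3
      rw [Finset.sum_const, smul_eq_mul, mul_comm A.card f]
      omega)
  refine ⟨H, hFH, hHB, fun x => ?_, fun y => ?_⟩
  · have h3 := hx x
    refine ⟨h3.2, ?_, fun hz => ?_⟩
    · have h4 := h3.1
      have : (if x ∈ Z1 then 1 else 0) ≤ 1 := by split_ifs <;> omega
      omega
    · have h4 := h3.1
      rw [if_neg hz] at h4
      omega
  · have h3 := hy y
    refine ⟨h3.2, ?_, fun hz => ?_⟩
    · have h4 := h3.1
      have : (if y ∈ Z2 then 1 else 0) ≤ 1 := by split_ifs <;> omega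
      omega
    · have h4 := h3.1
      rw [if_neg hz] at h4
      omega

section vio

variable {V : Type} [Fintype V]

/-- The violation of the condition (H1). -/
noncomputable def val (B F : V → V → Prop) (Z : Set V) (f : ℕ) (A S : Set V) : ℤ :=
  (f : ℤ) * A.ncard - (A ∩ Z).ncard - f * S.ncard - eb B A Sᶜ + eb F Aᶜ S

theorem compl_eq_insert {x : V} {A : Set V} (hx : x ∉ A) : Aᶜ = (insert x A)ᶜ ∪ {x} := by
  ext z
  simp only [Set.mem_compl_iff, Set.mem_union, Set.mem_insert_iff, Set.mem_singleton_iff, not_or]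
  constructor
  · intro h
    by_cases hz : z = x
    · exact Or.inr hz
    · exact Or.inl ⟨hz, h⟩
  · rintro (h | h)
    · exact h.2
    · rw [h]
      exact hx

open Classical in
theorem val_insert_left (B F : V → V → Prop) (Z : Set V) (f : ℕ) (A S : Set V) (x : V)
    (hx : x ∉ A) : val B F Z f (insert x A) S = val B F Z f A S + f - (if x ∈ Z then 1 else 0) -
      {y | y ∉ S ∧ B x y}.ncard - {y | y ∈ S ∧ F x y}.ncard := by
  have h1 : (insert x A).ncard = A.ncard + 1 := Set.ncard_insert_of_notMem hx (Set.toFinite _)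
  have h2 : eb B (insert x A) Sᶜ = eb B A Sᶜ + {y | y ∉ S ∧ B x y}.ncard := by
    rw [show insert x A = A ∪ {x} by rw [Set.union_comm]; rfl,
      eb_union_left _ _ _ _ (Set.disjoint_singleton_right.2 hx), eb_single_left]
    rfl
  have h3 : eb F Aᶜ S = eb F (insert x A)ᶜ S + {y | y ∈ S ∧ F x y}.ncard := by
    rw [compl_eq_insert hx, eb_union_left _ _ _ _ (by
      rw [Set.disjoint_singleton_right]
      intro h
      exact h (Set.mem_insert _ _)), eb_single_left]
  have h4 : ((insert x A ∩ Z).ncard : ℤ) = (A ∩ Z).ncard + (if x ∈ Z then 1 else 0) := by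
    by_cases hz : x ∈ Z
    · rw [if_pos hz, Set.insert_inter_of_mem hz,
        Set.ncard_insert_of_notMem (fun h => hx h.1) (Set.toFinite _)]
      push_cast
      ring
    · rw [if_neg hz, Set.insert_inter_of_notMem hz, add_zero]
  unfold val
  rw [h1, h2, h3, h4]
  push_cast
  ring

theorem val_insert_right (B F : V → V → Prop) (Z : Set V) (f : ℕ) (A S : Set V) (y : V)
    (hy : y ∉ S) : val B F Z f A (insert y S) = val B F Z f A S - f +
      {x | x ∈ A ∧ B x y}.ncard + {x | x ∉ A ∧ F x y}.ncard := by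
  have h1 : (insert y S).ncard = S.ncard + 1 := Set.ncard_insert_of_notMem hy (Set.toFinite _)
  have h2 : eb B A Sᶜ = eb B A (insert y S)ᶜ + {x | x ∈ A ∧ B x y}.ncard := by
    rw [compl_eq_insert hy, eb_union_right _ _ _ _ (by
      rw [Set.disjoint_singleton_right]
      intro h
      exact h (Set.mem_insert _ _)), eb_single_right]
  have h3 : eb F Aᶜ (insert y S) = eb F Aᶜ S + {x | x ∉ A ∧ F x y}.ncard := by
    rw [show insert y S = S ∪ {y} by rw [Set.union_comm]; rfl,
      eb_union_right _ _ _ _ (Set.disjoint_singleton_right.2 hy), eb_single_right]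
    rfl
  unfold val
  rw [h1, h2, h3]
  push_cast
  ring

/-- Additivity of the violation for pairs without arcs between them. -/
theorem val_union (B F : V → V → Prop) (Z : Set V) (f : ℕ) (hFB : ∀ x y, F x y → B x y)
    (A A' S S' : Set V) (hA : Disjoint A A') (hS : Disjoint S S')
    (h1 : ∀ x ∈ A, ∀ y ∈ S', ¬ B x y) (h2 : ∀ x ∈ A', ∀ y ∈ S, ¬ B x y) :
    val B F Z f (A ∪ A') (S ∪ S') = val B F Z f A S + val B F Z f A' S' := by
  have e1 : (A ∪ A').ncard = A.ncard + A'.ncard :=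
    Set.ncard_union_eq hA (Set.toFinite _) (Set.toFinite _)
  have e2 : (S ∪ S').ncard = S.ncard + S'.ncard :=
    Set.ncard_union_eq hS (Set.toFinite _) (Set.toFinite _)
  have e3 : ((A ∪ A') ∩ Z).ncard = (A ∩ Z).ncard + (A' ∩ Z).ncard := by
    rw [Set.union_inter_distrib_right]
    exact Set.ncard_union_eq (hA.mono Set.inter_subset_left Set.inter_subset_left)
      (Set.toFinite _) (Set.toFinite _)
  have e4 : eb B (A ∪ A') (S ∪ S')ᶜ = eb B A (S ∪ S')ᶜ + eb B A' (S ∪ S')ᶜ :=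
    eb_union_left _ _ _ _ hA
  have e5 : eb B A Sᶜ = eb B A (S ∪ S')ᶜ := by
    have : Sᶜ = (S ∪ S')ᶜ ∪ S' := by
      ext z
      have h0 : z ∈ S → z ∉ S' := fun h => Set.disjoint_left.1 hS h
      simp only [Set.mem_compl_iff, Set.mem_union, not_or]
      tauto
    rw [this, eb_union_right _ _ _ _ (by
      rw [Set.disjoint_left]
      intro z hz hz'
      exact hz (Or.inr hz')), eb_zero _ _ _ h1, add_zero]
  have e6 : eb B A' S'ᶜ = eb B A' (S ∪ S')ᶜ := by
    have : S'ᶜ = (S ∪ S')ᶜ ∪ S := by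
      ext z
      have h0 : z ∈ S → z ∉ S' := fun h => Set.disjoint_left.1 hS h
      simp only [Set.mem_compl_iff, Set.mem_union, not_or]
      tauto
    rw [this, eb_union_right _ _ _ _ (by
      rw [Set.disjoint_left]
      intro z hz hz'
      exact hz (Or.inl hz')), eb_zero _ _ _ h2, add_zero]
  have e7 : eb F (A ∪ A')ᶜ (S ∪ S') = eb F (A ∪ A')ᶜ S + eb F (A ∪ A')ᶜ S' :=
    eb_union_right _ _ _ _ hS
  have e8 : eb F Aᶜ S = eb F (A ∪ A')ᶜ S := by
    have : Aᶜ = (A ∪ A')ᶜ ∪ A' := by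
      ext z
      have h0 : z ∈ A → z ∉ A' := fun h => Set.disjoint_left.1 hA h
      simp only [Set.mem_compl_iff, Set.mem_union, not_or]
      tauto
    rw [this, eb_union_left _ _ _ _ (by
      rw [Set.disjoint_left]
      intro z hz hz'
      exact hz (Or.inr hz')), eb_zero F A' S (fun x hx y hy h => h2 x hx y hy (hFB _ _ h)),
      add_zero]
  have e9 : eb F A'ᶜ S' = eb F (A ∪ A')ᶜ S' := by
    have : A'ᶜ = (A ∪ A')ᶜ ∪ A := by
      ext z
      have h0 : z ∈ A → z ∉ A' := fun h => Set.disjoint_left.1 hA h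
      simp only [Set.mem_compl_iff, Set.mem_union, not_or]
      tauto
    rw [this, eb_union_left _ _ _ _ (by
      rw [Set.disjoint_left]
      intro z hz hz'
      exact hz (Or.inl hz')), eb_zero F A S' (fun x hx y hy h => h1 x hx y hy (hFB _ _ h)),
      add_zero]
  unfold val
  rw [e1, e2, e3, e4, e5, e6, e7, e8, e9]
  push_cast
  ring

theorem val_pos (B F : V → V → Prop) (Z : Set V) (f : ℕ) (A S : Set V) :
    f * S.ncard + eb B A Sᶜ + (A ∩ Z).ncard < f * A.ncard + eb F Aᶜ S ↔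
      1 ≤ val B F Z f A S := by
  unfold val
  zify
  constructor <;> intro h <;> linarith

end vio

theorem vio : VioStmt := by
  intro V _ O B F Z f j hjf hBO hFB hF1 hF2 hd1 hd2 hex
  classical
  -- maximal violation, then minimal size
  obtain ⟨⟨A, S⟩, hmax⟩ := Finite.exists_max (fun p : Set V × Set V =>
    val B F Z f p.1 p.2 * (2 * (Fintype.card V : ℤ) + 2) - (p.1.ncard + p.2.ncard : ℤ))
  have hmax' : ∀ A' S' : Set V,
      val B F Z f A' S' * (2 * (Fintype.card V : ℤ) + 2) - (A'.ncard + S'.ncard : ℤ) ≤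
      val B F Z f A S * (2 * (Fintype.card V : ℤ) + 2) - (A.ncard + S.ncard : ℤ) :=
    fun A' S' => hmax (A', S')
  have hcard : ∀ A' : Set V, (A'.ncard : ℤ) ≤ Fintype.card V := fun A' => by
    have := Set.ncard_le_card A'
    rw [Nat.card_eq_fintype_card] at this
    exact_mod_cast this
  have hle : ∀ A' S' : Set V, val B F Z f A' S' ≤ val B F Z f A S := by
    intro A' S'
    by_contra h
    push Not at h
    have h1 := hmax' A' S'
    have h2 := hcard A'
    have h3 := hcard S'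
    have h4 : (0 : ℤ) ≤ A.ncard := Nat.cast_nonneg _
    have h5 : (0 : ℤ) ≤ S.ncard := Nat.cast_nonneg _
    have h6 : (0 : ℤ) ≤ Fintype.card V := Nat.cast_nonneg _
    nlinarith
  have hlt : ∀ A' S' : Set V, A'.ncard + S'.ncard < A.ncard + S.ncard →
      val B F Z f A' S' < val B F Z f A S := by
    intro A' S' hc
    refine lt_of_le_of_ne (hle A' S') fun h => ?_
    have h1 := hmax' A' S'
    rw [h] at h1
    have h2 : ((A'.ncard + S'.ncard : ℕ) : ℤ) < ((A.ncard + S.ncard : ℕ) : ℤ) := by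
      exact_mod_cast hc
    push_cast at h2
    linarith
  have hv1 : 1 ≤ val B F Z f A S := by
    obtain ⟨A0, S0, h0⟩ := hex
    exact ((val_pos B F Z f A0 S0).1 h0).trans (hle A0 S0)
  -- the four conditions
  have c1 : ∀ x ∈ A, j ≤ {y | y ∈ S ∧ B x y}.ncard := by
    intro x hx
    have h1 := val_insert_left B F Z f (A \ {x}) S x (fun h => h.2 rfl)
    rw [Set.insert_diff_singleton, Set.insert_eq_of_mem hx] at h1
    have h2 : (A \ {x}).ncard + 1 = A.ncard := Set.ncard_diff_singleton_add_one hx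
    have h3 := hlt (A \ {x}) S (by omega)
    have h4 := deg_split (fun y => B x y) S
    have h5 := hd1 x
    have h6 : (0 : ℤ) ≤ if x ∈ Z then 1 else 0 := by split_ifs <;> norm_num
    omega
  have c2 : ∀ x ∉ A, j ≤ {y | y ∉ S ∧ B x y}.ncard := by
    intro x hx
    have h1 := val_insert_left B F Z f A S x hx
    have h3 := hle (insert x A) S
    have h5 : {y | y ∈ S ∧ F x y}.ncard ≤ 1 :=
      (Set.ncard_le_ncard (fun y hy => hy.2) (Set.toFinite _)).trans (hF1 x)
    have h6 : (if x ∈ Z then (1 : ℤ) else 0) ≤ 1 := by split_ifs <;> norm_num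
    omega
  have c3 : ∀ y ∈ S, j ≤ {x | x ∈ A ∧ B x y}.ncard := by
    intro y hy
    have h1 := val_insert_right B F Z f A (S \ {y}) y (fun h => h.2 rfl)
    rw [Set.insert_diff_singleton, Set.insert_eq_of_mem hy] at h1
    have h2 : (S \ {y}).ncard + 1 = S.ncard := Set.ncard_diff_singleton_add_one hy
    have h3 := hlt A (S \ {y}) (by omega)
    have h5 : {x | x ∉ A ∧ F x y}.ncard ≤ 1 :=
      (Set.ncard_le_ncard (fun y hy => hy.2) (Set.toFinite _)).trans (hF2 y)
    omega
  have c4 : ∀ y ∉ S, j ≤ {x | x ∉ A ∧ B x y}.ncard := by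
    intro y hy
    have h1 := val_insert_right B F Z f A S y hy
    have h3 := hle A (insert y S)
    have h4 := deg_split (fun x => B x y) A
    have h5 := hd2 y
    omega
  -- a minimal closed part with positive violation
  have hex2 : ∃ n : ℕ, ∃ A1 S1 : Set V, A1 ⊆ A ∧ S1 ⊆ S ∧
      (∀ x ∈ A1, ∀ y ∈ S \ S1, ¬ O x y) ∧ (∀ x ∈ A \ A1, ∀ y ∈ S1, ¬ O x y) ∧
      1 ≤ val B F Z f A1 S1 ∧ A1.ncard + S1.ncard = n :=
    ⟨_, A, S, subset_rfl, subset_rfl, fun x _ y hy => absurd hy.1 hy.2,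
      fun x hx => absurd hx.1 hx.2, hv1, rfl⟩
  obtain ⟨A1, S1, hA1, hS1, ho1, ho2, hv, hn⟩ := Nat.find_spec hex2
  have hmin : ∀ A2 S2 : Set V, A2 ⊆ A → S2 ⊆ S → (∀ x ∈ A2, ∀ y ∈ S \ S2, ¬ O x y) →
      (∀ x ∈ A \ A2, ∀ y ∈ S2, ¬ O x y) → 1 ≤ val B F Z f A2 S2 →
      A1.ncard + S1.ncard ≤ A2.ncard + S2.ncard := by
    intro A2 S2 g1 g2 g3 g4 g5
    rw [hn]
    exact Nat.find_min' hex2 ⟨A2, S2, g1, g2, g3, g4, g5, rfl⟩
  refine ⟨A1, S1, (val_pos B F Z f A1 S1).2 hv, ?_, ?_, ?_, ?_, ?_⟩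
  · -- connectedness
    set U : Set (V ⊕ V) := Sum.inl '' A1 ∪ Sum.inr '' S1 with hU
    have hne : U.Nonempty := by
      by_contra h
      rw [Set.not_nonempty_iff_eq_empty] at h
      have hAe : A1 = ∅ := by
        ext x
        simp only [Set.mem_empty_iff_false, iff_false]
        intro hx
        have : (Sum.inl x : V ⊕ V) ∈ U := Or.inl ⟨x, hx, rfl⟩
        rw [h] at this
        exact this
      have hSe : S1 = ∅ := by
        ext x
        simp only [Set.mem_empty_iff_false, iff_false]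
        intro hx
        have : (Sum.inr x : V ⊕ V) ∈ U := Or.inr ⟨x, hx, rfl⟩
        rw [h] at this
        exact this
      rw [hAe, hSe] at hv
      unfold val at hv
      rw [eb_zero B ∅ _ (fun x hx => absurd hx (Set.notMem_empty x)),
        eb_zero F _ ∅ (fun x _ y hy => absurd hy (Set.notMem_empty y))] at hv
      simp at hv
    obtain ⟨w0, hw0⟩ := hne
    set K := (dbl O).induce U with hK
    let A2 : Set V := {x | ∃ h : (Sum.inl x : V ⊕ V) ∈ U, K.Reachable ⟨w0, hw0⟩ ⟨Sum.inl x, h⟩}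
    let S2 : Set V := {y | ∃ h : (Sum.inr y : V ⊕ V) ∈ U, K.Reachable ⟨w0, hw0⟩ ⟨Sum.inr y, h⟩}
    have memA : ∀ x, (Sum.inl x : V ⊕ V) ∈ U ↔ x ∈ A1 := by
      intro x
      constructor
      · rintro (⟨z, hz, h⟩ | ⟨z, hz, h⟩)
        · rw [Sum.inl.injEq] at h
          rw [← h]
          exact hz
        · simp at h
      · exact fun h => Or.inl ⟨x, h, rfl⟩
    have memS : ∀ x, (Sum.inr x : V ⊕ V) ∈ U ↔ x ∈ S1 := by
      intro x
      constructor
      · rintro (⟨z, hz, h⟩ | ⟨z, hz, h⟩)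
        · simp at h
        · rw [Sum.inr.injEq] at h
          rw [← h]
          exact hz
      · exact fun h => Or.inr ⟨x, h, rfl⟩
    have hA2 : A2 ⊆ A1 := fun x hx => (memA x).1 hx.1
    have hS2 : S2 ⊆ S1 := fun x hx => (memS x).1 hx.1
    have hadj : ∀ x (hx : (Sum.inl x : V ⊕ V) ∈ U) y (hy : (Sum.inr y : V ⊕ V) ∈ U), O x y →
        K.Adj ⟨Sum.inl x, hx⟩ ⟨Sum.inr y, hy⟩ := fun x _ y _ h => Or.inl ⟨x, y, rfl, rfl, h⟩
    have n1 : ∀ x ∈ A2, ∀ y ∈ S1 \ S2, ¬ O x y := by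
      intro x hx y hy h
      apply hy.2
      refine ⟨(memS y).2 hy.1, ?_⟩
      exact hx.2.trans (Adj.reachable (hadj x hx.1 y ((memS y).2 hy.1) h))
    have n2 : ∀ x ∈ A1 \ A2, ∀ y ∈ S2, ¬ O x y := by
      intro x hx y hy h
      apply hx.2
      refine ⟨(memA x).2 hx.1, ?_⟩
      exact hy.2.trans (Adj.reachable (hadj x ((memA x).2 hx.1) y hy.1 h).symm)
    have hadd := val_union B F Z f hFB A2 (A1 \ A2) S2 (S1 \ S2) Set.disjoint_sdiff_right
      Set.disjoint_sdiff_right (fun x hx y hy h => n1 x hx y hy (hBO _ _ h))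
      (fun x hx y hy h => n2 x hx y hy (hBO _ _ h))
    rw [Set.union_diff_cancel hA2, Set.union_diff_cancel hS2] at hadd
    have cA : (A1 \ A2).ncard + A2.ncard = A1.ncard :=
      Set.ncard_diff_add_ncard_of_subset hA2 (Set.toFinite _)
    have cS : (S1 \ S2).ncard + S2.ncard = S1.ncard :=
      Set.ncard_diff_add_ncard_of_subset hS2 (Set.toFinite _)
    have hw : 1 ≤ A2.ncard + S2.ncard := by
      rcases w0 with x | y
      · have : x ∈ A2 := ⟨hw0, Reachable.refl _⟩
        have := (Set.ncard_pos (Set.toFinite _)).2 ⟨x, this⟩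
        omega
      · have : y ∈ S2 := ⟨hw0, Reachable.refl _⟩
        have := (Set.ncard_pos (Set.toFinite _)).2 ⟨y, this⟩
        omega
    have hfull : A2 = A1 ∧ S2 = S1 := by
      by_cases hp : 1 ≤ val B F Z f A2 S2
      · have h1 := hmin A2 S2 (hA2.trans hA1) (hS2.trans hS1) (by
          intro x hx y hy
          by_cases hy1 : y ∈ S1
          · exact n1 x hx y ⟨hy1, hy.2⟩
          · exact ho1 x (hA2 hx) y ⟨hy.1, hy1⟩) (by
          intro x hx y hy
          by_cases hx1 : x ∈ A1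
          · exact n2 x ⟨hx1, hx.2⟩ y hy
          · exact ho2 x ⟨hx.1, hx1⟩ y (hS2 hy)) hp
        constructor
        · refine Set.eq_of_subset_of_ncard_le hA2 ?_ (Set.toFinite _)
          omega
        · refine Set.eq_of_subset_of_ncard_le hS2 ?_ (Set.toFinite _)
          omega
      · exfalso
        have hp' : 1 ≤ val B F Z f (A1 \ A2) (S1 \ S2) := by omega
        have h1 := hmin (A1 \ A2) (S1 \ S2) (Set.diff_subset.trans hA1)
          (Set.diff_subset.trans hS1) (by
          intro x hx y hy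
          by_cases hy1 : y ∈ S1
          · have : y ∈ S2 := by
              by_contra h
              exact hy.2 ⟨hy1, h⟩
            exact n2 x hx y this
          · exact ho1 x hx.1 y ⟨hy.1, hy1⟩) (by
          intro x hx y hy
          by_cases hx1 : x ∈ A1
          · have : x ∈ A2 := by
              by_contra h
              exact hx.2 ⟨hx1, h⟩
            exact n1 x this y hy
          · exact ho2 x ⟨hx.1, hx1⟩ y hy.1) hp'
        omega
    refine connected_iff_exists_forall_reachable _ |>.2 ⟨⟨w0, hw0⟩, ?_⟩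
    rintro ⟨w, hw'⟩
    rcases w with x | y
    · have : x ∈ A2 := by
        rw [hfull.1]
        exact (memA x).1 hw'
      exact this.2
    · have : y ∈ S2 := by
        rw [hfull.2]
        exact (memS y).1 hw'
      exact this.2
  · intro x hx
    refine (c1 x (hA1 hx)).trans (Set.ncard_le_ncard ?_ (Set.toFinite _))
    rintro y ⟨hy, hB⟩
    refine ⟨?_, hB⟩
    by_contra h
    exact ho1 x hx y ⟨hy, h⟩ (hBO _ _ hB)
  · intro x hx
    by_cases hxA : x ∈ A
    · have h1 : {y | B x y} ⊆ {y | y ∉ S1 ∧ B x y} := fun y hB =>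
        ⟨fun h => ho2 x ⟨hxA, hx⟩ y h (hBO _ _ hB), hB⟩
      have h2 := Set.ncard_le_ncard h1 (Set.toFinite _)
      have := hd1 x
      omega
    · refine (c2 x hxA).trans (Set.ncard_le_ncard ?_ (Set.toFinite _))
      exact fun y hy => ⟨fun h => hy.1 (hS1 h), hy.2⟩
  · intro y hy
    refine (c3 y (hS1 hy)).trans (Set.ncard_le_ncard ?_ (Set.toFinite _))
    rintro x ⟨hx, hB⟩
    refine ⟨?_, hB⟩
    by_contra h
    exact ho2 x ⟨hx, h⟩ y hy (hBO _ _ hB)
  · intro y hy
    by_cases hyS : y ∈ S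
    · have h1 : {x | B x y} ⊆ {x | x ∉ A1 ∧ B x y} := fun x hB =>
        ⟨fun h => ho1 x h y ⟨hyS, hy⟩ (hBO _ _ hB), hB⟩
      have h2 := Set.ncard_le_ncard h1 (Set.toFinite _)
      have := hd2 y
      omega
    · refine (c4 y hyS).trans (Set.ncard_le_ncard ?_ (Set.toFinite _))
      exact fun x hx => ⟨fun h => hx.1 (hA1 h), hx.2⟩

end H7

end Pool.Agent.CG
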