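import Pool.Agent.Helper9_CG.Stmt
import Pool.Agent.Helper31_LLG.RllA

/-!
# CG: module WIT
-/

set_option autoImplicit false

namespace Pool.Agent.CG.H7

open SimpleGraph Pool.Agent.LAG Pool.Agent.LLG Pool.Agent.CG

/-- The probability that all arcs of `D` have colour `t`. -/
theorem cyl_col {V G : Type} [Fintype V] [Fintype G] {s d : ℕ} [NeZero s] (O : V → V → Prop)
    (grp : V → V → G) (idx : V → V → Fin s) (t : Fin s) (hG : GS O d grp idx)
    (D : Finset (V × V)) (hD : ∀ e ∈ D, O e.1 e.2) :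
    ({τ : G → Fin s | ∀ e ∈ D, idx e.1 e.2 + τ (grp e.1 e.2) = t}.ncard : ℝ) ≤
      (1 / (s : ℝ)) ^ D.card * (Nat.card (G → Fin s) : ℝ) := by
  classical
  let W : Finset G := D.image fun e => grp e.1 e.2
  let F : G → Finset (Fin s) := fun g => Finset.univ.filter fun a =>
    ∀ e ∈ D, grp e.1 e.2 = g → idx e.1 e.2 + a = t
  have hset : {τ : G → Fin s | ∀ e ∈ D, idx e.1 e.2 + τ (grp e.1 e.2) = t} =
      {τ : G → Fin s | ∀ g ∈ W, τ g ∈ F g} := by
    ext τ
    simp only [Set.mem_setOf_eq, W, F, Finset.mem_image, Finset.mem_filter, Finset.mem_univ,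
      true_and]
    constructor
    · rintro h g ⟨e0, he0, rfl⟩ e he heg
      rw [← heg]
      exact h e he
    · intro h e he
      exact h _ ⟨e, he, rfl⟩ e he rfl
  have h1 := Pool.Agent.LLG.H31.card_cyl W F
  rw [hset, h1, Nat.card_eq_fintype_card, Fintype.card_fin]
  refine mul_le_mul_of_nonneg_right ?_ (Nat.cast_nonneg _)
  have hs0 : (0 : ℝ) < s := by exact_mod_cast Nat.pos_of_ne_zero (NeZero.ne s)
  by_cases hinj : ∀ e ∈ D, ∀ e' ∈ D, grp e.1 e.2 = grp e'.1 e'.2 → e = e'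
  · have hc : W.card = D.card := Finset.card_image_of_injOn fun e he e' he' h =>
      hinj e he e' he' h
    rw [← hc, ← Finset.prod_const]
    refine Finset.prod_le_prod (fun g _ => by positivity) fun g hg => ?_
    obtain ⟨e0, he0, he0g⟩ := Finset.mem_image.1 hg
    have h2 : (F g).card ≤ 1 := by
      rw [Finset.card_le_one]
      intro a ha a' ha'
      have h3 := (Finset.mem_filter.1 ha).2 e0 he0 he0g
      have h4 := (Finset.mem_filter.1 ha').2 e0 he0 he0g
      rw [← h4] at h3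
      exact add_left_cancel h3
    have h3 : ((F g).card : ℝ) ≤ 1 := by exact_mod_cast h2
    gcongr
  · push Not at hinj
    obtain ⟨e, he, e', he', heq, hne⟩ := hinj
    have hg : grp e.1 e.2 ∈ W := Finset.mem_image.2 ⟨e, he, rfl⟩
    have h2 : F (grp e.1 e.2) = ∅ := by
      rw [Finset.eq_empty_iff_forall_notMem]
      intro a ha
      have h3 := (Finset.mem_filter.1 ha).2 e he rfl
      have h4 := (Finset.mem_filter.1 ha).2 e' he' heq.symm
      rw [← h4] at h3
      have h5 := hG.inj _ _ _ _ (hD e he) (hD e' he') heq (add_right_cancel h3)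
      exact hne (Prod.ext h5.1 h5.2)
    rw [Finset.prod_eq_zero hg (by rw [h2]; simp)]
    positivity

theorem wit_aux {V G ι : Type} [Fintype V] [Fintype G] {s d : ℕ} [NeZero s] (j : ℕ)
    (O : V → V → Prop) (grp : V → V → G) (idx : V → V → Fin s) (t : Fin s)
    (E : ι → Set (V × V)) (hG : GS O d grp idx) (hE : ∀ z, ∀ e ∈ E z, O e.1 e.2)
    (hdis : ∀ z z', z ≠ z' → Disjoint (E z) (E z')) (Y : Finset ι) :
    ∀ D : Finset (V × V), (∀ e ∈ D, O e.1 e.2) → (∀ z ∈ Y, ∀ e ∈ D, e ∉ E z) →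
    ({τ : G → Fin s | (∀ e ∈ D, idx e.1 e.2 + τ (grp e.1 e.2) = t) ∧ ∀ z ∈ Y,
        j ≤ {e : V × V | e ∈ E z ∧ idx e.1 e.2 + τ (grp e.1 e.2) = t}.ncard}.ncard : ℝ) ≤
      (1 / (s : ℝ)) ^ D.card *
        (∏ z ∈ Y, (((E z).ncard.choose j : ℝ) * (1 / (s : ℝ)) ^ j)) *
        (Nat.card (G → Fin s) : ℝ) := by
  classical
  induction Y using Finset.induction_on with
  | empty =>
    intro D hD _
    have h1 := cyl_col O grp idx t hG D hD
    simp only [Finset.notMem_empty, IsEmpty.forall_iff, implies_true, and_true,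
      Finset.prod_empty, mul_one]
    exact h1
  | insert z0 Y hz0 ih =>
    intro D hD hDE
    have hfin : (E z0).Finite := Set.toFinite _
    let P : Finset (Finset (V × V)) := hfin.toFinset.powersetCard j
    have hsub : {τ : G → Fin s | (∀ e ∈ D, idx e.1 e.2 + τ (grp e.1 e.2) = t) ∧
        ∀ z ∈ insert z0 Y,
          j ≤ {e : V × V | e ∈ E z ∧ idx e.1 e.2 + τ (grp e.1 e.2) = t}.ncard} ⊆
        ⋃ T ∈ P, {τ : G → Fin s | (∀ e ∈ D ∪ T, idx e.1 e.2 + τ (grp e.1 e.2) = t) ∧
          ∀ z ∈ Y, j ≤ {e : V × V | e ∈ E z ∧ idx e.1 e.2 + τ (grp e.1 e.2) = t}.ncard} := by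
      rintro τ ⟨h1, h2⟩
      have h3 := h2 z0 (Finset.mem_insert_self _ _)
      have hf : {e : V × V | e ∈ E z0 ∧ idx e.1 e.2 + τ (grp e.1 e.2) = t}.Finite :=
        Set.toFinite _
      rw [Set.ncard_eq_toFinset_card _ hf] at h3
      obtain ⟨T, hT, hTc⟩ := Finset.exists_subset_card_eq h3
      have hT' : ∀ e ∈ T, e ∈ E z0 ∧ idx e.1 e.2 + τ (grp e.1 e.2) = t := fun e he =>
        (hf.mem_toFinset.1 (hT he))
      refine Set.mem_iUnion₂.2 ⟨T, ?_, ?_, ?_⟩
      · refine Finset.mem_powersetCard.2 ⟨fun e he => ?_, hTc⟩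
        exact hfin.mem_toFinset.2 (hT' e he).1
      · intro e he
        rcases Finset.mem_union.1 he with he | he
        · exact h1 e he
        · exact (hT' e he).2
      · exact fun z hz => h2 z (Finset.mem_insert_of_mem hz)
    have h4 := Set.ncard_le_ncard hsub (Set.toFinite _)
    have h5 := h4.trans (Finset.set_ncard_biUnion_le P _)
    have h6 : ∀ T ∈ P, (({τ : G → Fin s | (∀ e ∈ D ∪ T, idx e.1 e.2 + τ (grp e.1 e.2) = t) ∧
          ∀ z ∈ Y, j ≤ {e : V × V | e ∈ E z ∧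
            idx e.1 e.2 + τ (grp e.1 e.2) = t}.ncard}.ncard : ℕ) : ℝ) ≤
        (1 / (s : ℝ)) ^ (D.card + j) *
          (∏ z ∈ Y, (((E z).ncard.choose j : ℝ) * (1 / (s : ℝ)) ^ j)) *
          (Nat.card (G → Fin s) : ℝ) := by
      intro T hT
      obtain ⟨hT1, hT2⟩ := Finset.mem_powersetCard.1 hT
      have hTE : ∀ e ∈ T, e ∈ E z0 := fun e he => hfin.mem_toFinset.1 (hT1 he)
      have hdisj : Disjoint D T := by
        rw [Finset.disjoint_left]
        intro e he he'
        exact hDE z0 (Finset.mem_insert_self _ _) e he (hTE e he')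
      have h7 := ih (D ∪ T) (by
        intro e he
        rcases Finset.mem_union.1 he with he | he
        · exact hD e he
        · exact hE z0 e (hTE e he)) (by
        intro z hz e he
        rcases Finset.mem_union.1 he with he | he
        · exact hDE z (Finset.mem_insert_of_mem hz) e he
        · intro hez
          have hne : z0 ≠ z := fun h => hz0 (h ▸ hz)
          exact Set.disjoint_left.1 (hdis z0 z hne) (hTE e he) hez)
      rw [Finset.card_union_of_disjoint hdisj, hT2] at h7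
      exact h7
    have h8 : (({τ : G → Fin s | (∀ e ∈ D, idx e.1 e.2 + τ (grp e.1 e.2) = t) ∧
        ∀ z ∈ insert z0 Y,
          j ≤ {e : V × V | e ∈ E z ∧ idx e.1 e.2 + τ (grp e.1 e.2) = t}.ncard}.ncard : ℕ) : ℝ) ≤
        ∑ T ∈ P, ((({τ : G → Fin s | (∀ e ∈ D ∪ T, idx e.1 e.2 + τ (grp e.1 e.2) = t) ∧
          ∀ z ∈ Y, j ≤ {e : V × V | e ∈ E z ∧
            idx e.1 e.2 + τ (grp e.1 e.2) = t}.ncard}.ncard : ℕ)) : ℝ) := by
      exact_mod_cast h5
    refine h8.trans ((Finset.sum_le_sum h6).trans (le_of_eq ?_))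
    rw [Finset.sum_const, nsmul_eq_mul, Finset.card_powersetCard,
      ← Set.ncard_eq_toFinset_card _ hfin, Finset.prod_insert hz0, pow_add]
    ring

theorem choose_bound (n j s : ℕ) (hj : 1 ≤ j) (hs : 1 ≤ s) :
    (n.choose j : ℝ) * (1 / (s : ℝ)) ^ j ≤ (3 * (n : ℝ) / (j * s)) ^ j := by
  have hj0 : (0 : ℝ) < j := by exact_mod_cast hj
  have hs0 : (0 : ℝ) < s := by exact_mod_cast hs
  have h1 : (n.choose j : ℝ) ≤ (n : ℝ) ^ j / (j.factorial : ℝ) := Nat.choose_le_pow_div j n
  have h2 : (j : ℝ) ^ j / (j.factorial : ℝ) ≤ 3 ^ j := by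
    have h3 := Real.pow_div_factorial_le_exp (j : ℝ) hj0.le j
    refine h3.trans ?_
    have h4 : Real.exp (j : ℝ) = (Real.exp 1) ^ j := by
      rw [← Real.exp_nat_mul, mul_one]
    rw [h4]
    exact pow_le_pow_left₀ (Real.exp_pos _).le (by
      have := Real.exp_one_lt_d9
      linarith) j
  have hf : (0 : ℝ) < (j.factorial : ℝ) := by exact_mod_cast Nat.factorial_pos j
  have h5 : (n : ℝ) ^ j / (j.factorial : ℝ) ≤ (3 * (n : ℝ) / j) ^ j := by
    rw [div_pow, mul_pow, div_le_div_iff₀ hf (by positivity)]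
    rw [div_le_iff₀ hf] at h2
    have := mul_le_mul_of_nonneg_left h2 (show 0 ≤ (n : ℝ) ^ j by positivity)
    linarith
  calc (n.choose j : ℝ) * (1 / (s : ℝ)) ^ j ≤ (3 * (n : ℝ) / j) ^ j * (1 / (s : ℝ)) ^ j :=
        mul_le_mul_of_nonneg_right (h1.trans h5) (by positivity)
    _ = (3 * (n : ℝ) / (j * s)) ^ j := by
        rw [← mul_pow]
        congr 1
        field_simp

theorem wit : WitStmt := by
  intro V G ι _ _ s d j _ O grp idx t Y E hG hj hE hdis
  classical
  have hs : 1 ≤ s := Nat.pos_of_ne_zero (NeZero.ne s)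
  have h1 := wit_aux j O grp idx t E hG hE hdis Y ∅ (by simp) (by simp)
  simp only [Finset.notMem_empty, IsEmpty.forall_iff, implies_true, true_and,
    Finset.card_empty, pow_zero, one_mul] at h1
  refine h1.trans (mul_le_mul_of_nonneg_right ?_ (Nat.cast_nonneg _))
  exact Finset.prod_le_prod (fun z _ => by positivity) fun z _ => choose_bound _ j s hj hs

end Pool.Agent.CG.H7
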