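import Pool.Agent.Helper7_CG.Hoff

/-!
# FRAC: from a fractional to an integral degree-constrained subgraph
-/

set_option autoImplicit false

namespace Pool.Agent.CG

open Finset

/-- FRAC: a fractional solution gives an integral one (bipartite integrality). -/
def FracStmt : Prop := ∀ (X Y : Type) [Fintype X] [Fintype Y] (C E : X → Y → Prop)
    (l u : X → ℕ) (l' u' : Y → ℕ) (w : X → Y → ℝ),
    (∀ x y, C x y → E x y) → (∀ x y, 0 ≤ w x y ∧ w x y ≤ 1) →
    (∀ x y, C x y → w x y = 1) → (∀ x y, ¬ E x y → w x y = 0) →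
    (∀ x, (l x : ℝ) ≤ ∑ y, w x y ∧ ∑ y, w x y ≤ u x) →
    (∀ y, (l' y : ℝ) ≤ ∑ x, w x y ∧ ∑ x, w x y ≤ u' y) →
    ∃ F : X → Y → Prop, (∀ x y, C x y → F x y) ∧ (∀ x y, F x y → E x y) ∧
      (∀ x, l x ≤ {y | F x y}.ncard ∧ {y | F x y}.ncard ≤ u x) ∧
      ∀ y, l' y ≤ {x | F x y}.ncard ∧ {x | F x y}.ncard ≤ u' y

namespace H7

section

variable {X Y : Type} [Fintype X] [Fintype Y]

theorem sum_le_eb (E : X → Y → Prop) (w : X → Y → ℝ) (h1 : ∀ x y, w x y ≤ 1)
    (h0 : ∀ x y, ¬ E x y → w x y = 0) (A : Set X) (S : Set Y)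
    [DecidablePred (· ∈ A)] [DecidablePred (· ∈ S)] :
    ∑ x, ∑ y, (if x ∈ A ∧ y ∈ S then w x y else 0) ≤ (eb E A S : ℝ) := by
  classical
  have h : (eb E A S : ℝ) = ((eb E A S : ℤ) : ℝ) := by push_cast; rfl
  rw [h, eb_eq]
  push_cast
  refine Finset.sum_le_sum fun x _ => Finset.sum_le_sum fun y _ => ?_
  by_cases hA : x ∈ A <;> by_cases hS : y ∈ S <;> by_cases hE : E x y
  · simp [hA, hS, hE, h1 x y]
  · simp [hA, hS, hE, h0 x y hE]
  all_goals simp [hA, hS]

theorem eb_le_sum (C : X → Y → Prop) (w : X → Y → ℝ) (h1 : ∀ x y, 0 ≤ w x y)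
    (h0 : ∀ x y, C x y → w x y = 1) (A : Set X) (S : Set Y)
    [DecidablePred (· ∈ A)] [DecidablePred (· ∈ S)] :
    (eb C A S : ℝ) ≤ ∑ x, ∑ y, (if x ∈ A ∧ y ∈ S then w x y else 0) := by
  classical
  have h : (eb C A S : ℝ) = ((eb C A S : ℤ) : ℝ) := by push_cast; rfl
  rw [h, eb_eq]
  push_cast
  refine Finset.sum_le_sum fun x _ => Finset.sum_le_sum fun y _ => ?_
  by_cases hA : x ∈ A <;> by_cases hS : y ∈ S <;> by_cases hE : C x y
  · simp [hA, hS, hE, h0 x y hE]
  · simp [hA, hS, hE, h1 x y]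
  all_goals simp [hA, hS]

theorem frac : FracStmt := by
  intro X Y _ _ C E l u l' u' w hCE hw hC hE hx hy
  classical
  refine intf X Y C E l u l' u' hCE (fun x => ?_) (fun y => ?_) ?_ ?_
  · have := (hx x).1.trans (hx x).2
    exact_mod_cast this
  · have := (hy y).1.trans (hy y).2
    exact_mod_cast this
  · intro A S
    have h1 : (∑ x ∈ A, (l x : ℝ)) ≤ ∑ x ∈ A, ∑ y, w x y :=
      Finset.sum_le_sum fun x _ => (hx x).1
    have h2 : ∑ y ∈ S, ∑ x, w x y ≤ ∑ y ∈ S, (u' y : ℝ) :=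
      Finset.sum_le_sum fun y _ => (hy y).2
    have h3 : ∑ x ∈ A, ∑ y, w x y =
        ∑ x, ∑ y, (if x ∈ (A : Set X) ∧ y ∈ (S : Set Y) then w x y else 0) +
        ∑ x, ∑ y, (if x ∈ (A : Set X) ∧ y ∈ ((S : Set Y)ᶜ) then w x y else 0) := by
      rw [← Finset.sum_add_distrib, ← Finset.sum_filter_add_sum_filter_not Finset.univ (· ∈ A)
        (fun x => _ + _), Finset.filter_mem_eq_inter, Finset.univ_inter,
        Finset.sum_eq_zero (s := Finset.univ.filter (fun x => x ∉ A)), add_zero]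
      · refine Finset.sum_congr rfl fun x hx => ?_
        rw [← Finset.sum_add_distrib]
        refine Finset.sum_congr rfl fun y _ => ?_
        by_cases hS : y ∈ S <;> simp [hx, hS]
      · intro x hx
        simp [(Finset.mem_filter.1 hx).2]
    have h4 : ∑ y ∈ S, ∑ x, w x y =
        ∑ x, ∑ y, (if x ∈ (A : Set X) ∧ y ∈ (S : Set Y) then w x y else 0) +
        ∑ x, ∑ y, (if x ∈ ((A : Set X)ᶜ) ∧ y ∈ (S : Set Y) then w x y else 0) := by
      rw [Finset.sum_comm, ← Finset.sum_add_distrib]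
      refine Finset.sum_congr rfl fun x _ => ?_
      rw [← Finset.sum_add_distrib, ← Finset.sum_filter_add_sum_filter_not Finset.univ (· ∈ S)
        (fun y => _ + _), Finset.filter_mem_eq_inter, Finset.univ_inter,
        Finset.sum_eq_zero (s := Finset.univ.filter (fun y => y ∉ S)), add_zero]
      · refine Finset.sum_congr rfl fun y hy => ?_
        by_cases hA : x ∈ A <;> simp [hy, hA]
      · intro y hy
        simp [(Finset.mem_filter.1 hy).2]
    have h5 := sum_le_eb E w (fun x y => (hw x y).2) hE (A : Set X) ((S : Set Y)ᶜ)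
    have h6 := eb_le_sum C w (fun x y => (hw x y).1) hC ((A : Set X)ᶜ) (S : Set Y)
    have h7 : (((∑ x ∈ A, l x) + eb C ((A : Set X)ᶜ) (S : Set Y) : ℕ) : ℝ) ≤
        (((∑ y ∈ S, u' y) + eb E (A : Set X) ((S : Set Y)ᶜ) : ℕ) : ℝ) := by
      push_cast
      linarith
    exact_mod_cast h7
  · intro A S
    have h1 : (∑ y ∈ S, (l' y : ℝ)) ≤ ∑ y ∈ S, ∑ x, w x y :=
      Finset.sum_le_sum fun y _ => (hy y).1
    have h2 : ∑ x ∈ A, ∑ y, w x y ≤ ∑ x ∈ A, (u x : ℝ) :=
      Finset.sum_le_sum fun x _ => (hx x).2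
    have h3 : ∑ x ∈ A, ∑ y, w x y =
        ∑ x, ∑ y, (if x ∈ (A : Set X) ∧ y ∈ (S : Set Y) then w x y else 0) +
        ∑ x, ∑ y, (if x ∈ (A : Set X) ∧ y ∈ ((S : Set Y)ᶜ) then w x y else 0) := by
      rw [← Finset.sum_add_distrib, ← Finset.sum_filter_add_sum_filter_not Finset.univ (· ∈ A)
        (fun x => _ + _), Finset.filter_mem_eq_inter, Finset.univ_inter,
        Finset.sum_eq_zero (s := Finset.univ.filter (fun x => x ∉ A)), add_zero]
      · refine Finset.sum_congr rfl fun x hx => ?_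
        rw [← Finset.sum_add_distrib]
        refine Finset.sum_congr rfl fun y _ => ?_
        by_cases hS : y ∈ S <;> simp [hx, hS]
      · intro x hx
        simp [(Finset.mem_filter.1 hx).2]
    have h4 : ∑ y ∈ S, ∑ x, w x y =
        ∑ x, ∑ y, (if x ∈ (A : Set X) ∧ y ∈ (S : Set Y) then w x y else 0) +
        ∑ x, ∑ y, (if x ∈ ((A : Set X)ᶜ) ∧ y ∈ (S : Set Y) then w x y else 0) := by
      rw [Finset.sum_comm, ← Finset.sum_add_distrib]
      refine Finset.sum_congr rfl fun x _ => ?_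
      rw [← Finset.sum_add_distrib, ← Finset.sum_filter_add_sum_filter_not Finset.univ (· ∈ S)
        (fun y => _ + _), Finset.filter_mem_eq_inter, Finset.univ_inter,
        Finset.sum_eq_zero (s := Finset.univ.filter (fun y => y ∉ S)), add_zero]
      · refine Finset.sum_congr rfl fun y hy => ?_
        by_cases hA : x ∈ A <;> simp [hy, hA]
      · intro y hy
        simp [(Finset.mem_filter.1 hy).2]
    have h5 := sum_le_eb E w (fun x y => (hw x y).2) hE ((A : Set X)ᶜ) (S : Set Y)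
    have h6 := eb_le_sum C w (fun x y => (hw x y).1) hC (A : Set X) ((S : Set Y)ᶜ)
    have h7 : (((∑ y ∈ S, l' y) + eb C (A : Set X) ((S : Set Y)ᶜ) : ℕ) : ℝ) ≤
        (((∑ x ∈ A, u x) + eb E ((A : Set X)ᶜ) (S : Set Y) : ℕ) : ℝ) := by
      push_cast
      linarith
    exact_mod_cast h7

end

end H7

end Pool.Agent.CG
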