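import Pool.Agent.Common_LLL.Basic

/-!
# GLLL: weighted local lemma with majorants

The bad event `B i` is not used through its own support (which may be huge) but through a majorant
`1_(B i) ≤ ∑_u f i u`, where `f i u ≥ 0` depends only on the small set `S i u` of coordinates.
-/

set_option autoImplicit false

namespace Pool.Agent.CG

/-- GLLL: local lemma with weights and majorants. -/
def GlllStmt : Prop := ∀ (I α ι : Type) [Fintype I] [DecidableEq I] [Fintype α] [Nonempty α]
    [Fintype ι] (κ : ι → Type) [∀ i, Fintype (κ i)] (B : ι → Set (I → α)) (W : ι → Finset I)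
    (f : ∀ i, κ i → (I → α) → ℝ) (S : ∀ i, κ i → Finset I) (x : ι → ℝ) (τ : I → ℝ),
    (∀ i ω ω', (∀ v ∈ W i, ω v = ω' v) → ω ∈ B i → ω' ∈ B i) →
    (∀ i u ω, 0 ≤ f i u ω) →
    (∀ i u ω ω', (∀ v ∈ S i u, ω v = ω' v) → f i u ω = f i u ω') →
    (∀ i, ∀ ω ∈ B i, 1 ≤ ∑ u, f i u ω) →
    (∀ i, 0 ≤ x i ∧ x i ≤ 1 / 2) →
    (∀ v, ∀ J : Finset ι, (∀ i ∈ J, v ∈ W i) → 2 * ∑ i ∈ J, x i ≤ τ v) →
    (∀ i, ∑ u, (∑ ω, f i u ω) * Real.exp (∑ v ∈ S i u, τ v) ≤
      x i * (Fintype.card (I → α) : ℝ)) →
    ∃ ω, ∀ i, ω ∉ B i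

/-- GLLLS: the version where the majorants are multiples of indicator functions. -/
def GlllSStmt : Prop := ∀ (I α ι : Type) [Fintype I] [DecidableEq I] [Fintype α] [Nonempty α]
    [Fintype ι] (κ : ι → Type) [∀ i, Fintype (κ i)] (B : ι → Set (I → α)) (W : ι → Finset I)
    (c : ∀ i, κ i → ℝ) (U : ∀ i, κ i → Set (I → α)) (S : ∀ i, κ i → Finset I) (x : ι → ℝ)
    (τ : I → ℝ),
    (∀ i ω ω', (∀ v ∈ W i, ω v = ω' v) → ω ∈ B i → ω' ∈ B i) →
    (∀ i u, 0 ≤ c i u) →
    (∀ i u ω ω', (∀ v ∈ S i u, ω v = ω' v) → ω ∈ U i u → ω' ∈ U i u) →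
    (∀ i, ∀ ω ∈ B i, 1 ≤ ∑ u, c i u * (U i u).indicator (fun _ => (1 : ℝ)) ω) →
    (∀ i, 0 ≤ x i ∧ x i ≤ 1 / 2) →
    (∀ v, ∀ J : Finset ι, (∀ i ∈ J, v ∈ W i) → 2 * ∑ i ∈ J, x i ≤ τ v) →
    (∀ i, ∑ u, c i u * ((U i u).ncard : ℝ) * Real.exp (∑ v ∈ S i u, τ v) ≤
      x i * (Fintype.card (I → α) : ℝ)) →
    ∃ ω, ∀ i, ω ∉ B i

namespace H7

section

variable {I α : Type} [Fintype I] [DecidableEq I] [Fintype α]

/-- Independence of a function and an event with disjoint supports, counting form. -/
theorem sum_mem_mul (S : Finset I) (f : (I → α) → ℝ) (E : Finset (I → α))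
    (hf : ∀ ω ω', (∀ v ∈ S, ω v = ω' v) → f ω = f ω')
    (hE : ∀ ω ω', (∀ v, v ∉ S → ω v = ω' v) → ω ∈ E → ω' ∈ E) :
    (∑ ω ∈ E, f ω) * (Fintype.card (I → α) : ℝ) = (∑ ω, f ω) * (E.card : ℝ) := by
  classical
  have h1 : (∑ ω ∈ E, f ω) * (Fintype.card (I → α) : ℝ) =
      ∑ p ∈ E ×ˢ (Finset.univ : Finset (I → α)), f p.1 := by
    rw [Finset.sum_product]
    simp only [Finset.sum_const, nsmul_eq_mul, Finset.card_univ]
    rw [Finset.sum_mul]
    exact Finset.sum_congr rfl fun ω _ => mul_comm _ _
  have h2 : (∑ ω, f ω) * (E.card : ℝ) =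
      ∑ p ∈ (Finset.univ : Finset (I → α)) ×ˢ E, f p.1 := by
    rw [Finset.sum_product]
    simp only [Finset.sum_const, nsmul_eq_mul]
    rw [Finset.sum_mul]
    exact Finset.sum_congr rfl fun ω _ => mul_comm _ _
  rw [h1, h2]
  refine Finset.sum_nbij' (fun p => (S.piecewise p.1 p.2, S.piecewise p.2 p.1))
    (fun p => (S.piecewise p.1 p.2, S.piecewise p.2 p.1)) ?_ ?_ ?_ ?_ ?_
  · rintro ⟨ω, ω'⟩ h
    simp only [Finset.mem_product, Finset.mem_univ, true_and, and_true] at h ⊢
    refine hE ω _ ?_ h
    intro v hv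
    simp [hv]
  · rintro ⟨ω, ω'⟩ h
    simp only [Finset.mem_product, Finset.mem_univ, true_and, and_true] at h ⊢
    refine hE ω' _ ?_ h
    intro v hv
    simp [hv]
  · rintro ⟨ω, ω'⟩ _
    simp only [Prod.mk.injEq]
    constructor <;> (funext v; by_cases hv : v ∈ S <;> simp [hv])
  · rintro ⟨ω, ω'⟩ _
    simp only [Prod.mk.injEq]
    constructor <;> (funext v; by_cases hv : v ∈ S <;> simp [hv])
  · rintro ⟨ω, ω'⟩ _
    exact hf _ _ fun v hv => by simp [hv]

end

theorem exp_le_one_sub {t : ℝ} (ht : 0 ≤ t) (ht2 : t ≤ 1 / 2) : Real.exp (-(2 * t)) ≤ 1 - t := by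
  have h1 : 2 * t + 1 ≤ Real.exp (2 * t) := Real.add_one_le_exp _
  rw [Real.exp_neg]
  have h2 : 0 < 2 * t + 1 := by linarith
  have h3 : (Real.exp (2 * t))⁻¹ ≤ (2 * t + 1)⁻¹ := inv_anti₀ h2 h1
  refine h3.trans ?_
  rw [inv_le_iff_one_le_mul₀ h2]
  nlinarith

open Pool.Agent.Common_LLL in
theorem glll : GlllStmt := by
  intro I α ι _ _ _ _ _ κ _ B W f S x τ hB hf0 hf hmaj hx hτ hP
  classical
  let A : ι → Finset (I → α) := fun i => Finset.univ.filter fun ω => ω ∈ B i
  have hA : ∀ i ω, ω ∈ A i ↔ ω ∈ B i := fun i ω => by simp [A]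
  have hΩ : (0 : ℝ) < Fintype.card (I → α) := by exact_mod_cast Fintype.card_pos
  have key : ∀ n : ℕ, ∀ T : Finset ι, T.card ≤ n → (0 : ℝ) < (avoid A T).card ∧
      ∀ i, i ∉ T → ((A i ∩ avoid A T).card : ℝ) ≤ x i * (avoid A T).card := by
    intro n
    induction n using Nat.strong_induction_on with
    | _ n ih =>
    intro T hT
    have hstep : ∀ T' : Finset ι, T'.card < T.card → ∀ j, j ∉ T' →
        Real.exp (-(2 * x j)) * (avoid A T').card ≤ ((avoid A (insert j T')).card : ℝ) := by
      intro T' hT' j hj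
      have h1 := (ih T'.card (lt_of_lt_of_le hT' hT) T' le_rfl).2 j hj
      rw [avoid_insert, Nat.cast_sub (Finset.card_le_card Finset.inter_subset_right)]
      have h2 := mul_le_mul_of_nonneg_right (exp_le_one_sub (hx j).1 (hx j).2)
        (Nat.cast_nonneg (avoid A T').card (α := ℝ))
      linarith
    constructor
    · rcases T.eq_empty_or_nonempty with rfl | ⟨j, hj⟩
      · simp only [avoid, Finset.notMem_empty, IsEmpty.forall_iff, implies_true,
          Finset.filter_true, Finset.card_univ]
        exact hΩ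
      · have hlt : (T.erase j).card < T.card := Finset.card_erase_lt_of_mem hj
        have h1 := (ih (T.erase j).card (lt_of_lt_of_le hlt hT) _ le_rfl).1
        have h2 := hstep (T.erase j) hlt j (Finset.notMem_erase _ _)
        rw [Finset.insert_erase hj] at h2
        exact lt_of_lt_of_le (mul_pos (Real.exp_pos _) h1) h2
    · intro i hi
      -- one piece of the majorant
      have hone : ∀ u, (∑ ω ∈ avoid A T, f i u ω) * (Fintype.card (I → α) : ℝ) ≤
          (∑ ω, f i u ω) * Real.exp (∑ v ∈ S i u, τ v) * (avoid A T).card := by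
        intro u
        set T1 := T.filter (fun j => ¬ Disjoint (W j) (S i u)) with hT1
        set T2 := T.filter (fun j => Disjoint (W j) (S i u)) with hT2
        have hind := sum_mem_mul (S i u) (f i u) (avoid A T2) (hf i u) (by
          intro ω ω' hωω hω
          simp only [avoid, Finset.mem_filter, Finset.mem_univ, true_and] at hω ⊢
          intro j hj hcon
          apply hω j hj
          rw [hA] at hcon ⊢
          refine hB j ω' ω ?_ hcon
          intro v hv
          have hd : Disjoint (W j) (S i u) := (Finset.mem_filter.1 hj).2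
          exact (hωω v (Finset.disjoint_left.1 hd hv)).symm)
        have h9 : ∑ ω ∈ avoid A T, f i u ω ≤ ∑ ω ∈ avoid A T2, f i u ω := by
          refine Finset.sum_le_sum_of_subset_of_nonneg ?_ fun ω _ _ => hf0 i u ω
          intro ω hω
          simp only [avoid, Finset.mem_filter, Finset.mem_univ, true_and] at hω ⊢
          intro j hj
          exact hω j (Finset.mem_filter.1 hj).1
        have hprod : ∀ R ⊆ T1, Real.exp (-(2 * ∑ j ∈ R, x j)) * (avoid A T2).card ≤
            ((avoid A (R ∪ T2)).card : ℝ) := by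
          intro R
          induction R using Finset.induction_on with
          | empty => intro _; simp
          | insert a R ha ihR =>
            intro hR
            have hR' : R ⊆ T1 := fun z hz => hR (Finset.mem_insert_of_mem hz)
            have haT1 : a ∈ T1 := hR (Finset.mem_insert_self _ _)
            have h5 := ihR hR'
            have haT2 : a ∉ R ∪ T2 := by
              rw [Finset.mem_union]
              rintro (h | h)
              · exact ha h
              · exact (Finset.mem_filter.1 haT1).2 (Finset.mem_filter.1 h).2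
            have hsub : insert a (R ∪ T2) ⊆ T := by
              intro z hz
              rcases Finset.mem_insert.1 hz with rfl | hz
              · exact (Finset.mem_filter.1 haT1).1
              · rcases Finset.mem_union.1 hz with hz | hz
                · exact (Finset.mem_filter.1 (hR' hz)).1
                · exact (Finset.mem_filter.1 hz).1
            have hlt : (R ∪ T2).card < T.card := by
              have := Finset.card_le_card hsub
              rw [Finset.card_insert_of_notMem haT2] at this
              omega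
            have h6 := hstep (R ∪ T2) hlt a haT2
            rw [Finset.insert_union, Finset.sum_insert ha]
            refine le_trans ?_ h6
            have h7 : Real.exp (-(2 * (x a + ∑ j ∈ R, x j))) =
                Real.exp (-(2 * x a)) * Real.exp (-(2 * ∑ j ∈ R, x j)) := by
              rw [← Real.exp_add]; congr 1; ring
            rw [h7, mul_assoc]
            exact mul_le_mul_of_nonneg_left h5 (Real.exp_pos _).le
        have hT12 : T1 ∪ T2 = T := by
          ext j
          simp only [hT1, hT2, Finset.mem_union, Finset.mem_filter]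
          tauto
        have h7 := hprod T1 subset_rfl
        rw [hT12] at h7
        have h8 : 2 * ∑ j ∈ T1, x j ≤ ∑ v ∈ S i u, τ v := by
          have h3 : ∑ j ∈ T1, x j ≤ ∑ v ∈ S i u, ∑ j ∈ Finset.univ.filter (fun j => v ∈ W j), x j := by
            calc ∑ j ∈ T1, x j ≤ ∑ j ∈ T1, ∑ v ∈ S i u, (if v ∈ W j then x j else 0) := by
                  refine Finset.sum_le_sum fun j hj => ?_
                  have hj' := (Finset.mem_filter.1 hj).2
                  rw [Finset.not_disjoint_iff] at hj'
                  obtain ⟨v, hv1, hv2⟩ := hj'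
                  calc x j = (if v ∈ W j then x j else 0) := by rw [if_pos hv1]
                    _ ≤ _ := Finset.single_le_sum
                      (f := fun v => if v ∈ W j then x j else 0)
                      (fun w _ => by split_ifs; exacts [(hx _).1, le_rfl]) hv2
              _ = ∑ v ∈ S i u, ∑ j ∈ T1, (if v ∈ W j then x j else 0) := Finset.sum_comm
              _ ≤ _ := by
                refine Finset.sum_le_sum fun v _ => ?_
                rw [← Finset.sum_filter]
                refine Finset.sum_le_sum_of_subset_of_nonneg ?_ fun j _ _ => (hx j).1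
                intro j hj
                exact Finset.mem_filter.2 ⟨Finset.mem_univ _, (Finset.mem_filter.1 hj).2⟩
          have h4 : ∑ v ∈ S i u, 2 * ∑ j ∈ Finset.univ.filter (fun j => v ∈ W j), x j ≤
              ∑ v ∈ S i u, τ v :=
            Finset.sum_le_sum fun v _ => hτ v _ fun j hj => (Finset.mem_filter.1 hj).2
          rw [← Finset.mul_sum] at h4
          linarith
        have h10 : ((avoid A T2).card : ℝ) ≤
            Real.exp (∑ v ∈ S i u, τ v) * (avoid A T).card := by
          have h11 : Real.exp (-(∑ v ∈ S i u, τ v)) * (avoid A T2).card ≤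
              ((avoid A T).card : ℝ) := by
            refine le_trans ?_ h7
            refine mul_le_mul_of_nonneg_right ?_ (Nat.cast_nonneg _)
            exact Real.exp_le_exp.2 (by linarith)
          rw [Real.exp_neg, inv_mul_le_iff₀ (Real.exp_pos _)] at h11
          exact h11
        have hs0 : 0 ≤ ∑ ω, f i u ω := Finset.sum_nonneg fun ω _ => hf0 i u ω
        calc (∑ ω ∈ avoid A T, f i u ω) * (Fintype.card (I → α) : ℝ)
            ≤ (∑ ω ∈ avoid A T2, f i u ω) * (Fintype.card (I → α) : ℝ) :=
              mul_le_mul_of_nonneg_right h9 hΩ.le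
          _ = (∑ ω, f i u ω) * ((avoid A T2).card : ℝ) := hind
          _ ≤ (∑ ω, f i u ω) * (Real.exp (∑ v ∈ S i u, τ v) * (avoid A T).card) :=
              mul_le_mul_of_nonneg_left h10 hs0
          _ = _ := by ring
      have h1 : ((A i ∩ avoid A T).card : ℝ) ≤ ∑ ω ∈ avoid A T, ∑ u, f i u ω := by
        have h2 : ((A i ∩ avoid A T).card : ℝ) = ∑ ω ∈ A i ∩ avoid A T, (1 : ℝ) := by simp
        rw [h2]
        refine le_trans (Finset.sum_le_sum fun ω hω => hmaj i ω ?_) ?_
        · exact (hA i ω).1 (Finset.mem_inter.1 hω).1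
        · exact Finset.sum_le_sum_of_subset_of_nonneg Finset.inter_subset_right
            fun ω _ _ => Finset.sum_nonneg fun u _ => hf0 i u ω
      rw [Finset.sum_comm] at h1
      have h3 : (∑ u, ∑ ω ∈ avoid A T, f i u ω) * (Fintype.card (I → α) : ℝ) ≤
          x i * (avoid A T).card * (Fintype.card (I → α) : ℝ) := by
        rw [Finset.sum_mul]
        refine le_trans (Finset.sum_le_sum fun u _ => hone u) ?_
        rw [← Finset.sum_mul]
        have := mul_le_mul_of_nonneg_right (hP i) (Nat.cast_nonneg (avoid A T).card (α := ℝ))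
        linarith
      exact h1.trans (le_of_mul_le_mul_right h3 hΩ)
  have h := (key (Finset.univ : Finset ι).card Finset.univ le_rfl).1
  have h' : 0 < (avoid A Finset.univ).card := by exact_mod_cast h
  obtain ⟨ω, hω⟩ := Finset.card_pos.1 h'
  refine ⟨ω, fun i hi => ?_⟩
  simp only [avoid, Finset.mem_filter] at hω
  exact hω.2 i (Finset.mem_univ _) ((hA i ω).2 hi)

theorem glllS : GlllSStmt := by
  intro I α ι _ _ _ _ _ κ _ B W c U S x τ hB hc hU hmaj hx hτ hP
  classical
  refine glll I α ι κ B W (fun i u ω => c i u * (U i u).indicator (fun _ => (1 : ℝ)) ω) S x τ hB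
    ?_ ?_ hmaj hx hτ ?_
  · intro i u ω
    exact mul_nonneg (hc i u) (Set.indicator_nonneg (fun _ _ => zero_le_one) _)
  · intro i u ω ω' h
    have h1 : ω ∈ U i u ↔ ω' ∈ U i u :=
      ⟨hU i u ω ω' h, hU i u ω' ω fun v hv => (h v hv).symm⟩
    congr 1
    by_cases h2 : ω ∈ U i u
    · rw [Set.indicator_of_mem h2, Set.indicator_of_mem (h1.1 h2)]
    · rw [Set.indicator_of_notMem h2, Set.indicator_of_notMem (fun h3 => h2 (h1.2 h3))]
  · intro i
    refine le_trans (le_of_eq ?_) (hP i)
    refine Finset.sum_congr rfl fun u _ => ?_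
    congr 1
    rw [← Finset.mul_sum]
    congr 1
    have h1 : ∑ ω, (U i u).indicator (fun _ => (1 : ℝ)) ω =
        ((Finset.univ.filter fun ω => ω ∈ U i u).card : ℝ) := by
      rw [Finset.card_filter]
      push_cast
      refine Finset.sum_congr rfl fun ω _ => ?_
      rw [Set.indicator_apply]
    rw [h1]
    congr 1
    rw [Set.ncard_eq_toFinset_card']
    congr 1
    ext ω
    simp

end H7

end Pool.Agent.CG
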