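import Pool.Agent.Helper9_CG.Stmt

/-!
# CG: PSI (inequality per vertex)
-/

set_option autoImplicit false

namespace Pool.Agent.CG.H7

open Pool.Agent.CG

theorem psi_low {u : ℝ} (h0 : 0 ≤ u) (h : u ≤ 1 / 1369) :
    (min 1 (37 * u)) ^ 250 ≤ u ^ 124 * u := by
  have h1 : min 1 (37 * u) = 37 * u := min_eq_right (by linarith)
  rw [h1]
  have h2 : (37 * u) ^ 2 ≤ u := by nlinarith
  have h3 : (37 * u) ^ 250 = ((37 * u) ^ 2) ^ 125 := (pow_mul (37 * u) 2 125)
  rw [h3, ← pow_succ]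
  exact pow_le_pow_left₀ (by positivity) h2 125

theorem psi_base {u : ℝ} (h0 : 0 ≤ u) (h1 : u ≤ 1) :
    Real.exp (-(15 * (1 - u))) * (min 1 (37 * u)) ^ 250 ≤ u := by
  have hm0 : 0 ≤ min 1 (37 * u) := le_min zero_le_one (by linarith)
  have hm1 : (min 1 (37 * u)) ^ 250 ≤ 1 := pow_le_one₀ hm0 (min_le_left _ _)
  have hm2 : 0 ≤ (min 1 (37 * u)) ^ 250 := pow_nonneg hm0 _
  rcases lt_or_ge u (1 / 1369) with h | h
  · have h2 := psi_low h0 h.le
    have h3 : u ^ 124 * u ≤ u := by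
      calc u ^ 124 * u ≤ 1 * u := mul_le_mul_of_nonneg_right (pow_le_one₀ h0 h1) h0
        _ = u := one_mul u
    have h4 : Real.exp (-(15 * (1 - u))) ≤ 1 := by
      rw [Real.exp_le_one_iff]
      linarith
    calc Real.exp (-(15 * (1 - u))) * (min 1 (37 * u)) ^ 250 ≤ 1 * (min 1 (37 * u)) ^ 250 :=
          mul_le_mul_of_nonneg_right h4 hm2
      _ ≤ u := by linarith
  · rcases lt_or_ge u (1 / 2) with h' | h'
    · have h2 : Real.exp (-(15 * (1 - u))) ≤ 1 / 1369 := by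
        have h3 : Real.exp (-(15 * (1 - u))) ≤ Real.exp (-(15 / 2)) :=
          Real.exp_le_exp.2 (by linarith)
        refine h3.trans ?_
        rw [Real.exp_neg, one_div]
        apply inv_anti₀ (by norm_num)
        have h4 : Real.exp (15 / 2) = (Real.exp 1) ^ 7 * Real.exp (1 / 2) := by
          rw [← Real.exp_nat_mul, ← Real.exp_add]
          norm_num
        have h5 : (2.7182 : ℝ) ≤ Real.exp 1 := by
          have := Real.exp_one_gt_d9
          linarith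
        have h6 : (1.5 : ℝ) ≤ Real.exp (1 / 2) := by
          have := Real.add_one_le_exp (1 / 2 : ℝ)
          linarith
        rw [h4]
        calc (1369 : ℝ) ≤ 2.7182 ^ 7 * 1.5 := by norm_num
          _ ≤ (Real.exp 1) ^ 7 * Real.exp (1 / 2) :=
            mul_le_mul (pow_le_pow_left₀ (by norm_num) h5 _) h6 (by norm_num) (by positivity)
      calc Real.exp (-(15 * (1 - u))) * (min 1 (37 * u)) ^ 250 ≤ (1 / 1369) * 1 :=
            mul_le_mul h2 hm1 hm2 (by norm_num)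
        _ ≤ u := by linarith
    · have h2 : Real.exp (-(15 * (1 - u))) ≤ u := by
        have h3 : Real.exp (-(15 * (1 - u))) ≤ Real.exp (1 - u⁻¹) := by
          apply Real.exp_le_exp.2
          have h4 : u⁻¹ ≤ 1 + 2 * (1 - u) := by
            rw [inv_le_iff_one_le_mul₀ (by linarith)]
            nlinarith
          linarith
        refine h3.trans ?_
        have h5 : 0 < u := by linarith
        have h6 := Real.one_sub_inv_le_log_of_pos h5
        calc Real.exp (1 - u⁻¹) ≤ Real.exp (Real.log u) := Real.exp_le_exp.2 h6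
          _ = u := Real.exp_log h5
      calc Real.exp (-(15 * (1 - u))) * (min 1 (37 * u)) ^ 250 ≤ u * 1 :=
            mul_le_mul h2 hm1 hm2 h0
        _ = u := mul_one u

theorem psi_base2 {u : ℝ} (h0 : 0 ≤ u) (k : ℕ) (hk : 1369 ^ 2 ≤ k)
    (hu : u ^ 2 * k ≤ 1) :
    Real.exp (-(15 * (1 - u))) * (min 1 (37 * u)) ^ 250 ≤ u * ((k : ℝ) ^ 61)⁻¹ := by
  have hk' : (1369 ^ 2 : ℝ) ≤ k := by exact_mod_cast hk
  have hk0 : (0 : ℝ) < k := by linarith [show (0 : ℝ) < 1369 ^ 2 by norm_num]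
  have hul : u ≤ 1 / 1369 := by
    by_contra h
    push Not at h
    have h1 : (1 / 1369 : ℝ) ^ 2 < u ^ 2 := pow_lt_pow_left₀ h (by norm_num) (by norm_num)
    have h2 : (1369 ^ 2 : ℝ) * (1 / 1369 : ℝ) ^ 2 < u ^ 2 * k := by
      calc (1369 ^ 2 : ℝ) * (1 / 1369 : ℝ) ^ 2 ≤ k * (1 / 1369 : ℝ) ^ 2 :=
            mul_le_mul_of_nonneg_right hk' (by norm_num)
        _ < k * u ^ 2 := mul_lt_mul_of_pos_left h1 hk0
        _ = u ^ 2 * k := mul_comm _ _
    have h3 : (1369 ^ 2 : ℝ) * (1 / 1369 : ℝ) ^ 2 = 1 := by norm_num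
    linarith
  have h2 := psi_low h0 hul
  have hm2 : 0 ≤ (min 1 (37 * u)) ^ 250 :=
    pow_nonneg (le_min zero_le_one (by linarith)) _
  have h4 : Real.exp (-(15 * (1 - u))) ≤ 1 := by
    rw [Real.exp_le_one_iff]
    linarith
  have h5 : u ^ 2 ≤ (k : ℝ)⁻¹ := by
    rw [← one_div, le_div_iff₀ hk0]
    exact hu
  have h6 : u ^ 124 ≤ ((k : ℝ) ^ 61)⁻¹ := by
    have e1 : u ^ 124 = (u ^ 2) ^ 62 := pow_mul u 2 62
    rw [e1]
    calc (u ^ 2) ^ 62 ≤ ((k : ℝ)⁻¹) ^ 62 := pow_le_pow_left₀ (by positivity) h5 _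
      _ ≤ ((k : ℝ)⁻¹) ^ 61 := by
          apply pow_le_pow_of_le_one (by positivity) _ (by norm_num)
          apply inv_le_one_of_one_le₀
          linarith [show (1 : ℝ) < 1369 ^ 2 by norm_num]
      _ = ((k : ℝ) ^ 61)⁻¹ := inv_pow _ _
  calc Real.exp (-(15 * (1 - u))) * (min 1 (37 * u)) ^ 250 ≤ 1 * (min 1 (37 * u)) ^ 250 :=
        mul_le_mul_of_nonneg_right h4 hm2
    _ ≤ u ^ 124 * u := by linarith
    _ = u * u ^ 124 := mul_comm _ _
    _ ≤ u * ((k : ℝ) ^ 61)⁻¹ := mul_le_mul_of_nonneg_left h6 h0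

theorem psi_lift {u X Y : ℝ} (c : ℕ) (hc : 1 ≤ c) (h1 : u ≤ 1) (hX : 0 ≤ X)
    (h : Real.exp (-(15 * (1 - u))) * X ≤ Y) :
    Real.exp (-(25 * c * (1 - u))) * X ^ c ≤
      Y ^ c * (Real.exp (-(1 - u)) * Real.exp (-(9 * c * (1 - u)))) := by
  have hc' : (1 : ℝ) ≤ c := by exact_mod_cast hc
  have e1 : Real.exp (-(25 * c * (1 - u))) =
      (Real.exp (-(15 * (1 - u)))) ^ c * Real.exp (-(10 * c * (1 - u))) := by
    rw [← Real.exp_nat_mul, ← Real.exp_add]
    congr 1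
    ring
  have e2 : Real.exp (-(10 * c * (1 - u))) ≤
      Real.exp (-(1 - u)) * Real.exp (-(9 * c * (1 - u))) := by
    rw [← Real.exp_add]
    apply Real.exp_le_exp.2
    nlinarith
  calc Real.exp (-(25 * c * (1 - u))) * X ^ c =
        (Real.exp (-(15 * (1 - u))) * X) ^ c * Real.exp (-(10 * c * (1 - u))) := by
          rw [e1, mul_pow]; ring
    _ ≤ Y ^ c * (Real.exp (-(1 - u)) * Real.exp (-(9 * c * (1 - u)))) :=
        mul_le_mul (pow_le_pow_left₀ (by positivity) h _) e2 (Real.exp_pos _).le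
          (pow_nonneg (le_trans (by positivity) h) _)

theorem psi : PsiStmt := by
  intro c k u hc h0 h1
  have hm0 : 0 ≤ min 1 (37 * u) := le_min zero_le_one (by linarith)
  have e0 : (min 1 (37 * u)) ^ (250 * c) = ((min 1 (37 * u)) ^ 250) ^ c := pow_mul _ _ _
  rw [e0]
  refine ⟨?_, fun hk hu => ?_⟩
  · have h := psi_lift c hc h1 (pow_nonneg hm0 250) (psi_base h0 h1)
    calc _ ≤ _ := h
      _ = _ := by ring
  · have h := psi_lift c hc h1 (pow_nonneg hm0 250) (psi_base2 h0 k hk hu)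
    have e1 : (((k : ℝ) ^ 61)⁻¹) ^ c = ((k : ℝ) ^ (61 * c))⁻¹ := by
      rw [inv_pow, ← pow_mul]
    rw [mul_pow, e1] at h
    calc _ ≤ _ := h
      _ = _ := by ring

end Pool.Agent.CG.H7
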