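import Pool.Agent.Helper9_CG.Stmt

/-!
# CG: module VIOD
-/

set_option autoImplicit false

namespace Pool.Agent.CG.H7

open SimpleGraph Pool.Agent.LAG Pool.Agent.LLG Pool.Agent.CG

theorem viod : ViodStmt := by
  intro V G Ξ _ s b k j _ D ω t hj hD hex
  classical
  have hF1 : ∀ x, {y | D.F ω t x y}.ncard ≤ 1 := by
    intro x
    rw [Set.ncard_le_one (Set.toFinite _)]
    rintro y ⟨_, ξ, hξ⟩ y' ⟨_, ξ', hξ'⟩
    by_cases h : (ξ, ω.2.1 ξ) = (ξ', ω.2.1 ξ')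
    · rw [Prod.mk.injEq] at h
      have h2 : D.e ξ (ω.2.1 ξ) = D.e ξ' (ω.2.1 ξ') := by rw [h.1]
      rw [hξ, hξ', Prod.mk.injEq] at h2
      exact h2.2
    · have h2 := (hD.ed _ _ _ _ h).1
      rw [hξ, hξ'] at h2
      exact absurd rfl h2
  have hF2 : ∀ y, {x | D.F ω t x y}.ncard ≤ 1 := by
    intro x
    rw [Set.ncard_le_one (Set.toFinite _)]
    rintro y ⟨_, ξ, hξ⟩ y' ⟨_, ξ', hξ'⟩
    by_cases h : (ξ, ω.2.1 ξ) = (ξ', ω.2.1 ξ')
    · rw [Prod.mk.injEq] at h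
      have h2 : D.e ξ (ω.2.1 ξ) = D.e ξ' (ω.2.1 ξ') := by rw [h.1]
      rw [hξ, hξ', Prod.mk.injEq] at h2
      exact h2.1
    · have h2 := (hD.ed _ _ _ _ h).2
      rw [hξ, hξ'] at h2
      exact absurd rfl h2
  obtain ⟨A, S, h1, h2, h3, h4, h5, h6⟩ := vio V D.O (D.B ω t) (D.F ω t) (D.Z ω t) (5 * j) j
    (by omega) (fun x y h => h.1) (fun x y h => h.1) hF1 hF2
    (fun x => by
      have := hD.gs.dt ω.1 t x
      have h : {y | D.B ω t x y} = {y | D.O x y ∧ D.idx x y + ω.1 (D.grp x y) = t} := rfl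
      rw [h]
      omega)
    (fun y => by
      have := hD.gs.dh ω.1 t y
      have h : {x | D.B ω t x y} = {x | D.O x y ∧ D.idx x y + ω.1 (D.grp x y) = t} := rfl
      rw [h]
      omega) hex
  exact ⟨A, S, h2, h3, fun x hx _ => h4 x hx, h5, fun y hy _ => h6 y hy, h1⟩

end Pool.Agent.CG.H7
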